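import Pool.Agent.Helper63.EW.Max

/-! Edge weights: the maximum principle with a growth factor. -/

namespace Pool.Agent.Helper63.EW

open Finset

variable {a : ℕ → ℝ} {w : ℝ → ℝ}

/-- The maximum principle up to `N`, with the constant. -/
theorem max_trunc (h0 : ∀ t ∈ Set.Ico (0 : ℝ) 1, 0 ≤ w t) (hw : MonotoneOn w (Set.Ico 0 1)) (ha : ∀ n, |a n| ≤ 1)
    {t : ℝ} (ht : t ∈ Set.Ico (0 : ℝ) 1) (hwt : w t ≠ 0) {C : ℝ} (hC : ∀ N : ℕ, 1 ≤ N → w (1 - 1 / N) ≤ C * √N)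
    {K : ℝ} {N : ℕ} (hS : ∀ n ≤ N, S a w n ≤ K * √n) :
    ∀ n ≤ N, ∑ i ∈ Icc 1 n, a i ≤ max ((K + C) / ((1 - √t) * w t)) (√(⌈2 / (1 - t)⌉₊ : ℝ)) * √n := by
  have hwt' : 0 < w t := lt_of_le_of_ne (h0 t ht) (Ne.symm hwt)
  have hst : √t < 1 := by
    rw [Real.sqrt_lt' one_pos]
    simpa using ht.2
  have hc : 0 < (1 - √t) * w t := mul_pos (by linarith) hwt'
  set N₁ := ⌈2 / (1 - t)⌉₊ with hN₁
  set K' := max ((K + C) / ((1 - √t) * w t)) (√(N₁ : ℝ)) with hK'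
  have hK0 : 0 ≤ K' := le_max_of_le_right (Real.sqrt_nonneg _)
  intro n
  induction n using Nat.strong_induction_on with
  | _ n ih =>
    intro hnN
    by_contra hlt
    rw [not_le] at hlt
    have hn0 : n ≠ 0 := by
      rintro rfl
      simp at hlt
    have hnpos : (0 : ℝ) < n := by positivity
    have hs : 0 < √(n : ℝ) := Real.sqrt_pos.2 hnpos
    have htriv : ∑ i ∈ Icc 1 n, a i ≤ n := by
      calc ∑ i ∈ Icc 1 n, a i ≤ ∑ i ∈ Icc 1 n, (1 : ℝ) := Finset.sum_le_sum fun i _ => (abs_le.1 (ha i)).2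
        _ = n := by simp
    have hbig : N₁ ≤ n := by
      by_contra hsm
      rw [not_le] at hsm
      have h1 : (n : ℝ) = √n * √n := (Real.mul_self_sqrt hnpos.le).symm
      have h2 : √(n : ℝ) ≤ √(N₁ : ℝ) := Real.sqrt_le_sqrt (by exact_mod_cast hsm.le)
      have h3 : √(N₁ : ℝ) ≤ K' := le_max_right _ _
      nlinarith
    have hNt : 2 ≤ (1 - t) * n := by
      have h1 : 2 / (1 - t) ≤ n := (Nat.le_ceil _).trans (by exact_mod_cast hbig)
      rw [div_le_iff₀ (by linarith [ht.2])] at h1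
      linarith
    set m := (∑ i ∈ Icc 1 n, a i) / √n with hm
    have hmK : K' < m := by rw [hm, lt_div_iff₀ hs]; exact hlt
    have h1 := step h0 hw ha ht hNt (hK0.trans hmK.le)
      (fun i hi => (ih i hi (by omega)).trans (mul_le_mul_of_nonneg_right hmK.le (Real.sqrt_nonneg _)))
      (by rw [hm]; field_simp)
    have h2 := hS n hnN
    have h3 : w ((n - 1 : ℕ) / n) ≤ C * √n := by
      have h4 : (((n - 1 : ℕ) : ℝ) / n) = 1 - 1 / n := by
        rw [Nat.cast_sub (by omega)]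
        field_simp
        simp
      rw [h4]
      exact hC n (by omega)
    have h5 : m * ((1 - √t) * w t) * √n ≤ (K + C) * √n := by linarith
    have h6 : m * ((1 - √t) * w t) ≤ K + C := le_of_mul_le_mul_right h5 hs
    have h7 : m ≤ (K + C) / ((1 - √t) * w t) := by rw [le_div_iff₀ hc]; exact h6
    exact absurd (h7.trans (le_max_left _ _)) (not_le.2 hmK)

/-- `S` from the sums, for a bounded weight. -/
theorem S_le (h0 : ∀ t ∈ Set.Ico (0 : ℝ) 1, 0 ≤ w t) (hw : MonotoneOn w (Set.Ico 0 1)) {B : ℝ}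
    (hB : ∀ t ∈ Set.Ico (0 : ℝ) 1, w t ≤ B) {M : ℝ} (hM : 0 ≤ M) {N : ℕ}
    (hK : ∀ n < N, |∑ i ∈ Icc 1 n, a i| ≤ M) : |S a w N| ≤ 2 * B * M := by
  have hB0 : 0 ≤ B := (h0 0 ⟨le_rfl, one_pos⟩).trans (hB 0 ⟨le_rfl, one_pos⟩)
  rcases Nat.lt_or_ge N 2 with h | h
  · have : Ico 1 N = ∅ := by rw [Finset.Ico_eq_empty_iff]; omega
    rw [S, this, sum_empty, abs_zero]
    positivity
  obtain ⟨k, rfl⟩ : ∃ k, N = k + 1 := ⟨N - 1, by omega⟩
  have hk : 1 ≤ k := by omega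
  set v : ℕ → ℝ := fun n => w (n / (k + 1 : ℕ)) with hv
  have hS : S a w (k + 1) = (∑ n ∈ Icc 1 k, a n) * v k - ∑ n ∈ Ico 1 k, (∑ i ∈ Icc 1 n, a i) * (v (n + 1) - v n) :=
    abel a v hk
  have hvk : v k ≤ B := hB _ (mem_dom (by omega))
  have hvk0 : 0 ≤ v k := h0 _ (mem_dom (by omega))
  have hv10 : 0 ≤ v 1 := h0 _ (mem_dom (by omega))
  have h1 : |(∑ n ∈ Icc 1 k, a n) * v k| ≤ M * B := by
    rw [abs_mul, abs_of_nonneg hvk0]
    exact mul_le_mul (hK k (by omega)) hvk hvk0 (by positivity)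
  have h2 : |∑ n ∈ Ico 1 k, (∑ i ∈ Icc 1 n, a i) * (v (n + 1) - v n)| ≤ M * B := by
    calc |∑ n ∈ Ico 1 k, (∑ i ∈ Icc 1 n, a i) * (v (n + 1) - v n)|
        ≤ ∑ n ∈ Ico 1 k, |(∑ i ∈ Icc 1 n, a i) * (v (n + 1) - v n)| := Finset.abs_sum_le_sum_abs _ _
      _ ≤ ∑ n ∈ Ico 1 k, M * (v (n + 1) - v n) := by
          refine Finset.sum_le_sum fun n hn => ?_
          rw [mem_Ico] at hn
          have hd : 0 ≤ v (n + 1) - v n := sub_nonneg.2 (v_mono hw (by omega) (by omega))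
          rw [abs_mul, abs_of_nonneg hd]
          exact mul_le_mul_of_nonneg_right (hK n (by omega)) hd
      _ = M * (v k - v 1) := by rw [← Finset.mul_sum, tele v hk]
      _ ≤ M * B := mul_le_mul_of_nonneg_left (by linarith) hM
  rw [hS]
  calc _ ≤ |(∑ n ∈ Icc 1 k, a n) * v k| + |∑ n ∈ Ico 1 k, (∑ i ∈ Icc 1 n, a i) * (v (n + 1) - v n)| := abs_sub _ _
    _ ≤ M * B + M * B := add_le_add h1 h2
    _ = 2 * B * M := by ring

/-- Clause (2), the direct part, for every weight: a bound `O(√N G(N))` for the weighted sums gives the same bound for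
the sums. -/
theorem of_weighted (h0 : ∀ t ∈ Set.Ico (0 : ℝ) 1, 0 ≤ w t) (hw : MonotoneOn w (Set.Ico 0 1)) (ha : ∀ n, |a n| ≤ 1)
    (hne : ∃ t ∈ Set.Ico (0 : ℝ) 1, w t ≠ 0) {C : ℝ} (hC : ∀ N : ℕ, 1 ≤ N → w (1 - 1 / N) ≤ C * √N)
    {G : ℕ → ℝ} (hG : Monotone G) (hG1 : ∀ n, 1 ≤ G n) (h : ∃ K : ℝ, ∀ N : ℕ, |S a w N| ≤ K * (√N * G N)) :
    ∃ K : ℝ, ∀ N : ℕ, |∑ n ∈ Icc 1 N, a n| ≤ K * (√N * G N) := by
  obtain ⟨K, hK⟩ := h
  obtain ⟨t, ht, hwt⟩ := hne
  have hC0 : 0 ≤ C := by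
    have := (h0 0 ⟨le_rfl, one_pos⟩).trans (by simpa using hC 1 le_rfl)
    exact this
  have hK0 : 0 ≤ K := by
    have h1 := (abs_nonneg _).trans (hK 1)
    have h2 := hG1 1
    simp only [Nat.cast_one, Real.sqrt_one, one_mul] at h1
    by_contra hneg
    rw [not_le] at hneg
    nlinarith
  have hwt' : 0 < w t := lt_of_le_of_ne (h0 t ht) (Ne.symm hwt)
  have hst : √t < 1 := by
    rw [Real.sqrt_lt' one_pos]
    simpa using ht.2
  have hc : 0 < (1 - √t) * w t := mul_pos (by linarith) hwt'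
  set K' := max ((K + C) / ((1 - √t) * w t)) (√(⌈2 / (1 - t)⌉₊ : ℝ)) with hK'
  refine ⟨K', fun N => ?_⟩
  have hGN := hG1 N
  have hle : max ((K * G N + C) / ((1 - √t) * w t)) (√(⌈2 / (1 - t)⌉₊ : ℝ)) ≤ G N * K' := by
    apply max_le
    · have h1 : (K * G N + C) / ((1 - √t) * w t) ≤ G N * ((K + C) / ((1 - √t) * w t)) := by
        rw [← mul_div_assoc]
        refine div_le_div_of_nonneg_right ?_ hc.le
        nlinarith
      exact h1.trans (mul_le_mul_of_nonneg_left (le_max_left _ _) (by linarith))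
    · have h1 : √(⌈2 / (1 - t)⌉₊ : ℝ) ≤ K' := le_max_right _ _
      have h2 : 0 ≤ K' := (Real.sqrt_nonneg _).trans h1
      nlinarith
  have hSn : ∀ n ≤ N, |S a w n| ≤ (K * G N) * √n := fun n hn => by
    refine (hK n).trans ?_
    have h1 := hG hn
    have h2 : 0 ≤ √(n : ℝ) := Real.sqrt_nonneg _
    have h3 : K * (√n * G n) = (K * √n) * G n := by ring
    have h4 : K * G N * √n = (K * √n) * G N := by ring
    rw [h3, h4]
    exact mul_le_mul_of_nonneg_left h1 (by positivity)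
  have hup := max_trunc h0 hw ha ht hwt hC (K := K * G N) (N := N) (fun n hn => (abs_le.1 (hSn n hn)).2) N le_rfl
  have hlo := max_trunc (a := fun n => -a n) h0 hw (fun n => by rw [abs_neg]; exact ha n) ht hwt hC (K := K * G N)
    (N := N) (fun n hn => by
      have h3 : S (fun n => -a n) w n = -S a w n := by simp [S, Finset.sum_neg_distrib]
      rw [h3]
      have := (abs_le.1 (hSn n hn)).1
      linarith) N le_rfl
  rw [Finset.sum_neg_distrib] at hlo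
  have hs : 0 ≤ √(N : ℝ) := Real.sqrt_nonneg _
  have h5 := mul_le_mul_of_nonneg_right hle hs
  have h6 : G N * K' * √N = K' * (√N * G N) := by ring
  rw [abs_le]
  constructor <;> linarith

/-- Clause (2), the converse for bounded weights. -/
theorem to_weighted (h0 : ∀ t ∈ Set.Ico (0 : ℝ) 1, 0 ≤ w t) (hw : MonotoneOn w (Set.Ico 0 1)) {B : ℝ}
    (hB : ∀ t ∈ Set.Ico (0 : ℝ) 1, w t ≤ B)
    {G : ℕ → ℝ} (hG : Monotone G) (hG1 : ∀ n, 1 ≤ G n) (h : ∃ K : ℝ, ∀ N : ℕ, |∑ n ∈ Icc 1 N, a n| ≤ K * (√N * G N)) :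
    ∃ K : ℝ, ∀ N : ℕ, |S a w N| ≤ K * (√N * G N) := by
  obtain ⟨K, hK⟩ := h
  have hK0 : 0 ≤ K := by
    have h1 := (abs_nonneg _).trans (hK 1)
    have h2 := hG1 1
    simp only [Nat.cast_one, Real.sqrt_one, one_mul] at h1
    by_contra hneg
    rw [not_le] at hneg
    nlinarith
  refine ⟨2 * B * K, fun N => ?_⟩
  have hGN := hG1 N
  have h1 := S_le (a := a) h0 hw hB (M := K * (√N * G N)) (by positivity) (N := N) (fun n hn => by
    refine (hK n).trans ?_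
    have h2 := hG hn.le
    have h3 := hG1 n
    have h4 : √(n : ℝ) ≤ √(N : ℝ) := Real.sqrt_le_sqrt (by exact_mod_cast hn.le)
    have h5 : 0 ≤ √(n : ℝ) := Real.sqrt_nonneg _
    refine mul_le_mul_of_nonneg_left ?_ hK0
    exact mul_le_mul h4 h2 (by linarith) (Real.sqrt_nonneg _))
  calc |S a w N| ≤ 2 * B * (K * (√N * G N)) := h1
    _ = 2 * B * K * (√N * G N) := by ring

end Pool.Agent.Helper63.EW
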