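import Pool.Agent.Helper63.EW.Max

/-! Edge weights: comparison of real `x` with the next integer. -/

namespace Pool.Agent.Helper63.EW

open Finset

variable {a : ℕ → ℝ} {w : ℝ → ℝ}

theorem mem_domR {n N : ℕ} {x : ℝ} (hx : (N : ℝ) < x) (h : n ≤ N) : ((n : ℝ) / x) ∈ Set.Ico (0 : ℝ) 1 := by
  have hN : (0 : ℝ) ≤ N := Nat.cast_nonneg _
  have hx0 : 0 < x := hN.trans_lt hx
  refine ⟨by positivity, ?_⟩
  rw [div_lt_one hx0]
  exact lt_of_le_of_lt (by exact_mod_cast h) hx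

/-- For real `x` strictly between `N` and `N + 1` the sum at `x` differs from the sum at `N + 1` by at most
`w(N/x)`. -/
theorem cmp (h0 : ∀ t ∈ Set.Ico (0 : ℝ) 1, 0 ≤ w t) (hw : MonotoneOn w (Set.Ico 0 1)) (ha : ∀ n, |a n| ≤ 1)
    {N : ℕ} {x : ℝ} (hx : (N : ℝ) < x) (hx' : x ≤ N + 1) :
    |∑ n ∈ Icc 1 N, a n * w (n / x) - S a w (N + 1)| ≤ w (N / x) := by
  have hN : (0 : ℝ) ≤ N := Nat.cast_nonneg _
  have hx0 : 0 < x := hN.trans_lt hx
  have hS : S a w (N + 1) = ∑ n ∈ Icc 1 N, a n * w (n / (N + 1 : ℕ)) := by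
    rw [S]
    apply Finset.sum_congr _ fun _ _ => rfl
    ext n
    simp only [mem_Ico, mem_Icc]
    omega
  rw [hS, ← Finset.sum_sub_distrib]
  have hterm : ∀ n ∈ Icc 1 N, |a n * w (n / x) - a n * w (n / (N + 1 : ℕ))| ≤ w (n / x) - w (((n - 1 : ℕ) : ℝ) / x) := by
    intro n hn
    rw [mem_Icc] at hn
    have h1 : w (n / (N + 1 : ℕ)) ≤ w (n / x) := by
      refine hw (mem_dom (by omega)) (mem_domR hx hn.2) ?_
      have : x ≤ ((N + 1 : ℕ) : ℝ) := by push_cast; exact hx'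
      gcongr
    have h2 : w (((n - 1 : ℕ) : ℝ) / x) ≤ w (n / (N + 1 : ℕ)) := by
      refine hw (mem_domR hx (by omega)) (mem_dom (by omega)) ?_
      rw [div_le_div_iff₀ hx0 (by positivity), Nat.cast_sub hn.1]
      push_cast
      have h3 : (1 : ℝ) ≤ n := by exact_mod_cast hn.1
      have h4 : (n : ℝ) ≤ N := by exact_mod_cast hn.2
      nlinarith
    rw [← mul_sub, abs_mul]
    calc |a n| * |w (n / x) - w (n / (N + 1 : ℕ))| ≤ 1 * |w (n / x) - w (n / (N + 1 : ℕ))| :=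
          mul_le_mul_of_nonneg_right (ha n) (abs_nonneg _)
      _ = w (n / x) - w (n / (N + 1 : ℕ)) := by rw [one_mul, abs_of_nonneg (by linarith)]
      _ ≤ w (n / x) - w (((n - 1 : ℕ) : ℝ) / x) := by linarith
  have htel : ∀ M ≤ N, ∑ n ∈ Icc 1 M, (w (n / x) - w (((n - 1 : ℕ) : ℝ) / x)) = w (M / x) - w (0 / x) := by
    intro M hM
    induction M with
    | zero => simp
    | succ M ih =>
      rw [Finset.sum_Icc_succ_top (by omega), ih (by omega)]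
      simp only [Nat.add_sub_cancel]
      ring
  calc |∑ n ∈ Icc 1 N, (a n * w (n / x) - a n * w (n / (N + 1 : ℕ)))|
      ≤ ∑ n ∈ Icc 1 N, |a n * w (n / x) - a n * w (n / (N + 1 : ℕ))| := Finset.abs_sum_le_sum_abs _ _
    _ ≤ ∑ n ∈ Icc 1 N, (w (n / x) - w (((n - 1 : ℕ) : ℝ) / x)) := Finset.sum_le_sum hterm
    _ = w (N / x) - w (0 / x) := htel N le_rfl
    _ ≤ w (N / x) := by
        have := h0 (0 / x) (by simp)
        linarith

/-- the size of the weight near the edge -/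
theorem edge_le (hw : MonotoneOn w (Set.Ico 0 1)) {C : ℝ} (hC : ∀ N : ℕ, 1 ≤ N → w (1 - 1 / N) ≤ C * √N)
    (hC0 : 0 ≤ C) {t : ℝ} (ht : t ∈ Set.Ico (0 : ℝ) 1) : w t ≤ 2 * C / √(1 - t) := by
  have h1t : 0 < 1 - t := by linarith [ht.2]
  set N := ⌈1 / (1 - t)⌉₊ with hN
  have hN1 : 1 / (1 - t) ≤ N := Nat.le_ceil _
  have h1 : 1 ≤ 1 / (1 - t) := by rw [le_div_iff₀ h1t]; linarith [ht.1]
  have hN2 : (N : ℝ) < 1 / (1 - t) + 1 := Nat.ceil_lt_add_one (by linarith)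
  have hN0 : 1 ≤ N := by
    have : (1 : ℝ) ≤ N := h1.trans hN1
    exact_mod_cast this
  have hNp : (0 : ℝ) < N := by positivity
  have h2 : t ≤ 1 - 1 / N := by
    have : 1 / (N : ℝ) ≤ 1 - t := by
      rw [div_le_iff₀ hNp]
      rw [div_le_iff₀ h1t] at hN1
      linarith
    linarith
  have h3 : (1 - 1 / (N : ℝ)) ∈ Set.Ico (0 : ℝ) 1 := by
    refine ⟨ht.1.trans h2, ?_⟩
    have : 0 < 1 / (N : ℝ) := by positivity
    linarith
  have h4 : √(N : ℝ) ≤ 2 / √(1 - t) := by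
    rw [Real.sqrt_le_left (by positivity), div_pow, Real.sq_sqrt h1t.le]
    have : (2 : ℝ) ^ 2 / (1 - t) = 4 * (1 / (1 - t)) := by ring
    rw [this]
    linarith
  calc w t ≤ w (1 - 1 / N) := hw ht h3 h2
    _ ≤ C * √N := hC N hN0
    _ ≤ C * (2 / √(1 - t)) := mul_le_mul_of_nonneg_left h4 hC0
    _ = 2 * C / √(1 - t) := by ring

/-- `w(N/x) ≤ 2C √x / √(x - N)` for `x` in `(N, N+1]` (indeed for all `x > N`). -/
theorem edge_le' (hw : MonotoneOn w (Set.Ico 0 1)) {C : ℝ} (hC : ∀ N : ℕ, 1 ≤ N → w (1 - 1 / N) ≤ C * √N)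
    (hC0 : 0 ≤ C) {N : ℕ} {x : ℝ} (hx : (N : ℝ) < x) : w (N / x) ≤ 2 * C * √x / √(x - N) := by
  have hN : (0 : ℝ) ≤ N := Nat.cast_nonneg _
  have hx0 : 0 < x := hN.trans_lt hx
  have h := edge_le hw hC hC0 (mem_domR hx le_rfl)
  refine h.trans (le_of_eq ?_)
  have : 1 - (N : ℝ) / x = (x - N) / x := by field_simp
  rw [this, Real.sqrt_div' _ hx0.le, div_div_eq_mul_div]

end Pool.Agent.Helper63.EW
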