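import Pool.Agent.Helper63.EW.Frac
import Pool.Agent.Helper63.EW.Cmp

/-! Edge weights: the window mean of the normalised sum over `n ≤ x`, real `x`. -/

namespace Pool.Agent.Helper63.EW

open MeasureTheory Set Filter Topology
open Pool.Agent.Helper71.MR (gt gt_cont gt_nonneg gt_zero gt_le_one gt_integrable)

/-- `∑_{n ≤ x} a(n) w(n/x)` for real `x` (used for non-integral `x`) -/
noncomputable def R (a : ℕ → ℝ) (w : ℝ → ℝ) (x : ℝ) : ℝ := ∑ n ∈ Finset.Icc 1 ⌊x⌋₊, a n * w (n / x)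

variable {a : ℕ → ℝ} {w : ℝ → ℝ}

/-- pointwise -/
theorem R_le (h0 : ∀ t ∈ Set.Ico (0 : ℝ) 1, 0 ≤ w t) (hw : MonotoneOn w (Set.Ico 0 1)) (ha : ∀ n, |a n| ≤ 1)
    {C : ℝ} (hC0 : 0 ≤ C) (hC : ∀ N : ℕ, 1 ≤ N → w (1 - 1 / N) ≤ C * √N) {K : ℝ} (hK : 0 ≤ K) {N₀ : ℕ}
    (hS : ∀ N : ℕ, N₀ ≤ N → S a w N ≤ K * √N) {x : ℝ} (hx1 : 1 ≤ x) (hx : (N₀ : ℝ) ≤ x) (hxi : Int.fract x ≠ 0) :
    R a w x / √x ≤ 2 * K + 2 * C * fr x := by
  have hx0 : 0 < x := by linarith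
  have hs : 0 < √x := Real.sqrt_pos.2 hx0
  set N := ⌊x⌋₊ with hN
  have hNx : (N : ℝ) ≤ x := Nat.floor_le hx0.le
  have hfr : Int.fract x = x - N := by
    rw [Int.fract, hN, ← natCast_floor_eq_intCast_floor hx0.le]
  have hNx' : (N : ℝ) < x := by
    refine lt_of_le_of_ne hNx fun h => hxi ?_
    rw [hfr, ← h, sub_self]
  have hNx2 : x ≤ N + 1 := (Nat.lt_floor_add_one x).le
  have h1 := (abs_le.1 (cmp h0 hw ha hNx' hNx2)).2
  have h2 : S a w (N + 1) ≤ K * √((N + 1 : ℕ) : ℝ) := hS _ (by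
    have : (N₀ : ℝ) ≤ ((N + 1 : ℕ) : ℝ) := by push_cast; linarith
    exact_mod_cast this)
  have h3 := edge_le' hw hC hC0 hNx'
  have h4 : √((N + 1 : ℕ) : ℝ) ≤ 2 * √x := by
    rw [Real.sqrt_le_left (by positivity), mul_pow, Real.sq_sqrt hx0.le]
    push_cast
    linarith
  rw [div_le_iff₀ hs]
  have h5 : w (N / x) ≤ 2 * C * fr x * √x := by
    rw [fr, hfr]
    calc w (N / x) ≤ 2 * C * √x / √(x - N) := h3
      _ = 2 * C * (√(x - N))⁻¹ * √x := by ring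
  have h6 : K * √((N + 1 : ℕ) : ℝ) ≤ 2 * K * √x := by nlinarith
  have h7 : R a w x = ∑ n ∈ Finset.Icc 1 N, a n * w (n / x) := rfl
  rw [h7]
  nlinarith

theorem fract_ae (τ : ℝ) : ∀ᵐ s : ℝ ∂volume, Int.fract (Real.exp (τ + s)) ≠ 0 := by
  have hc : (Set.range fun n : ℤ => Real.log n - τ).Countable := Set.countable_range _
  filter_upwards [(hc.ae_notMem volume)] with s hs h
  apply hs
  refine ⟨⌊Real.exp (τ + s)⌋, ?_⟩
  have h1 : ((⌊Real.exp (τ + s)⌋ : ℤ) : ℝ) = Real.exp (τ + s) := by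
    have := Int.self_sub_floor (Real.exp (τ + s))
    rw [h] at this
    linarith
  show Real.log _ - τ = s
  rw [h1, Real.log_exp]
  ring

/-- **Window means of the real sums.** -/
theorem upper (h0 : ∀ t ∈ Set.Ico (0 : ℝ) 1, 0 ≤ w t) (hw : MonotoneOn w (Set.Ico 0 1)) (ha : ∀ n, |a n| ≤ 1)
    {C : ℝ} (hC0 : 0 ≤ C) (hC : ∀ N : ℕ, 1 ≤ N → w (1 - 1 / N) ≤ C * √N) {K : ℝ} (hK : 0 ≤ K) {N₀ : ℕ}
    (hS : ∀ N : ℕ, N₀ ≤ N → S a w N ≤ K * √N) {δ : ℝ} (hδ0 : 0 < δ) (hδ : δ ≤ 1) : ∃ τ₀ : ℝ, ∀ τ, τ₀ ≤ τ →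
      ∫ s : ℝ, gt δ s * (Real.exp (-(τ + s) / 2) * R a w (Real.exp (τ + s))) ≤ (2 * K + 24 * C) * ∫ u : ℝ, gt δ u := by
  obtain ⟨τ₀, hτ₀⟩ := fract_int hδ0 hδ
  refine ⟨max (max τ₀ 0) (N₀ : ℝ), fun τ hτ => ?_⟩
  have h1 : τ₀ ≤ τ := (le_max_left _ _).trans ((le_max_left _ _).trans hτ)
  have h2 : 0 ≤ τ := (le_max_right _ _).trans ((le_max_left _ _).trans hτ)
  have h3 : (N₀ : ℝ) ≤ τ := (le_max_right _ _).trans hτ
  obtain ⟨hi, hle⟩ := hτ₀ τ h1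
  have hI0 : 0 ≤ ∫ u : ℝ, gt δ u := integral_nonneg fun u => gt_nonneg _ _
  by_cases hint : Integrable (fun s : ℝ => gt δ s * (Real.exp (-(τ + s) / 2) * R a w (Real.exp (τ + s))))
  swap
  · rw [integral_undef hint]
    positivity
  calc ∫ s : ℝ, gt δ s * (Real.exp (-(τ + s) / 2) * R a w (Real.exp (τ + s)))
      ≤ ∫ s : ℝ, (2 * K * gt δ s + 2 * C * (gt δ s * fr (Real.exp (τ + s)))) := by
        refine integral_mono_ae hint (((gt_integrable δ).const_mul _).add (hi.const_mul _)) ?_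
        filter_upwards [fract_ae τ] with s hs
        rcases le_or_gt s 0 with hs0 | hs0
        · simp [gt_zero (δ := δ) (Or.inl hs0)]
        have h4 : 1 ≤ Real.exp (τ + s) := Real.one_le_exp (by linarith)
        have h5 : (N₀ : ℝ) ≤ Real.exp (τ + s) := by
          have := Real.add_one_le_exp (τ + s)
          linarith
        have h6 := R_le h0 hw ha hC0 hC hK hS h4 h5 hs
        have h7 : Real.exp (-(τ + s) / 2) * R a w (Real.exp (τ + s)) = R a w (Real.exp (τ + s)) / √(Real.exp (τ + s)) := by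
          rw [← Real.exp_half, neg_div, Real.exp_neg, mul_comm, ← div_eq_mul_inv]
        show gt δ s * (Real.exp (-(τ + s) / 2) * R a w (Real.exp (τ + s))) ≤ _
        rw [h7]
        calc gt δ s * (R a w (Real.exp (τ + s)) / √(Real.exp (τ + s)))
            ≤ gt δ s * (2 * K + 2 * C * fr (Real.exp (τ + s))) := mul_le_mul_of_nonneg_left h6 (gt_nonneg _ _)
          _ = _ := by ring
    _ = 2 * K * (∫ s, gt δ s) + 2 * C * ∫ s, gt δ s * fr (Real.exp (τ + s)) := by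
        rw [integral_add ((gt_integrable δ).const_mul _) (hi.const_mul _), integral_const_mul, integral_const_mul]
    _ ≤ 2 * K * (∫ s, gt δ s) + 2 * C * (12 * ∫ u : ℝ, gt δ u) := by gcongr
    _ = _ := by ring

end Pool.Agent.Helper63.EW
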