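import Pool.Agent.Helper63.EW.Fub
import Pool.Agent.Helper95.EW.Spike

/-! Edge weights: the upper bound of the level integral for a general sequence. -/

namespace Pool.Agent.Helper63.EW

open MeasureTheory Set Filter Topology
open Pool.Agent.Helper95.EW
open Pool.Agent.Helper71.MR (gt gt_cont gt_nonneg gt_zero gt_le_one gt_integrable)

variable {a : ℕ → ℝ} {w : ℝ → ℝ}

/-- the normalised sum function -/
noncomputable def ma (a : ℕ → ℝ) (t : ℝ) : ℝ := AA a (Real.exp t) * Real.exp (-t / 2)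

/-- its smoothing -/
noncomputable def ha (a : ℕ → ℝ) (δ y : ℝ) : ℝ := ∫ u : ℝ, ma a (y + u) * gt δ u

theorem ma_meas (a : ℕ → ℝ) : Measurable (ma a) :=
  ((AA_meas a).comp Real.measurable_exp).mul (by fun_prop)

theorem AA_abs (ha : ∀ n, |a n| ≤ 1) {x : ℝ} (hx : 0 ≤ x) : |AA a x| ≤ x := by
  calc |AA a x| ≤ ∑ n ∈ Finset.Icc 1 ⌊x⌋₊, |a n| := Finset.abs_sum_le_sum_abs _ _
    _ ≤ ∑ n ∈ Finset.Icc 1 ⌊x⌋₊, (1 : ℝ) := Finset.sum_le_sum fun n _ => ha n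
    _ = ⌊x⌋₊ := by simp
    _ ≤ x := Nat.floor_le hx

theorem ma_abs (ha : ∀ n, |a n| ≤ 1) (t : ℝ) : |ma a t| ≤ Real.exp (t / 2) := by
  rw [ma, abs_mul, abs_of_pos (Real.exp_pos (-t / 2))]
  calc |AA a (Real.exp t)| * Real.exp (-t / 2) ≤ Real.exp t * Real.exp (-t / 2) :=
        mul_le_mul_of_nonneg_right (AA_abs ha (Real.exp_pos _).le) (Real.exp_pos _).le
    _ = Real.exp (t / 2) := by rw [← Real.exp_add]; ring_nf

theorem ma_int (hab : ∀ n, |a n| ≤ 1) (δ y : ℝ) : Integrable (fun u : ℝ => ma a (y + u) * gt δ u) := by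
  refine Integrable.mono' ((gt_integrable δ).const_mul (Real.exp ((y + |δ|) / 2))) ?_ ?_
  · exact (((ma_meas a).comp (by fun_prop)).mul (gt_cont δ).measurable).aestronglyMeasurable
  · filter_upwards with u
    rw [norm_mul, Real.norm_of_nonneg (gt_nonneg _ _), Real.norm_eq_abs]
    rcases le_or_gt u 0 with h | h
    · simp [gt_zero (δ := δ) (Or.inl h)]
    rcases le_or_gt δ u with h' | h'
    · simp [gt_zero (δ := δ) (Or.inr h')]
    refine mul_le_mul_of_nonneg_right ((ma_abs hab _).trans (Real.exp_le_exp.2 ?_)) (gt_nonneg _ _)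
    have := le_abs_self δ
    linarith

theorem ma_diff {c : ℝ} (hc : 0 < c) (t : ℝ) :
    ma a t - √c * ma a (t + Real.log c) = Real.exp (-t / 2) * (AA a (Real.exp t) - AA a (c * Real.exp t)) := by
  unfold ma
  have h1 : Real.exp (t + Real.log c) = c * Real.exp t := by rw [Real.exp_add, Real.exp_log hc]; ring
  have h2 : √c * Real.exp (-(t + Real.log c) / 2) = Real.exp (-t / 2) := by
    have h3 : √c = Real.exp (Real.log c / 2) := by
      rw [Real.sqrt_eq_rpow, Real.rpow_def_of_pos hc]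
      ring_nf
    rw [h3, ← Real.exp_add]
    ring_nf
  rw [h1]
  calc AA a (Real.exp t) * Real.exp (-t / 2) - √c * (AA a (c * Real.exp t) * Real.exp (-(t + Real.log c) / 2))
      = AA a (Real.exp t) * Real.exp (-t / 2) - AA a (c * Real.exp t) * (√c * Real.exp (-(t + Real.log c) / 2)) := by
        ring
    _ = _ := by rw [h2]; ring

/-- the level function as an integral -/
theorem Dl_ha (hab : ∀ n, |a n| ≤ 1) (δ : ℝ) (w : ℝ → ℝ) (y lam : ℝ) :
    Dl (ha a δ) w y lam = ∫ u : ℝ, gt δ u * (Real.exp (-(y + u) / 2) *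
      (AA a (Real.exp (y + u)) - AA a (Ac w lam * Real.exp (y + u)))) := by
  rcases (Ac_nonneg w lam).eq_or_lt with h | h
  · unfold Dl
    rw [← h, Real.sqrt_zero, zero_mul, sub_zero, ha]
    refine integral_congr_ae (Eventually.of_forall fun u => ?_)
    have h1 : AA a (0 * Real.exp (y + u)) = 0 := by simp [AA]
    beta_reduce
    rw [h1, sub_zero, ma]
    ring
  · unfold Dl
    rw [ha, ha, ← integral_const_mul, ← integral_sub (ma_int hab δ y) ((ma_int hab δ _).const_mul _)]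
    refine integral_congr_ae (Eventually.of_forall fun u => ?_)
    have h1 := ma_diff (a := a) h (y + u)
    beta_reduce
    rw [← h1, show y + Real.log (Ac w lam) + u = y + u + Real.log (Ac w lam) by ring]
    ring

/-- **The upper bound of the level integral**, general sequence. -/
theorem Ua (hab : ∀ n, |a n| ≤ 1) (h0 : ∀ t ∈ Ico (0 : ℝ) 1, 0 ≤ w t) (hw : MonotoneOn w (Ico 0 1))
    (hub : ∀ B : ℝ, ∃ t ∈ Ico (0:ℝ) 1, B < w t) {Cw : ℝ} (hC : ∀ N : ℕ, 1 ≤ N → w (1 - 1 / N) ≤ Cw * √N)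
    {K : ℝ} {N₀ : ℕ} (hS : ∀ N : ℕ, N₀ ≤ N → S a w N ≤ K * √N)
    {δ : ℝ} (hδ0 : 0 < δ) (hδ : δ ≤ 1) : ∃ τ₀ : ℝ, ∀ τ, τ₀ ≤ τ →
      IntegrableOn (Dl (ha a δ) w τ) (Ioi 0) ∧
      ∫ lam in Ioi (0 : ℝ), Dl (ha a δ) w τ lam ≤ (2 * max K 0 + 24 * Cw) * ∫ u : ℝ, gt δ u := by
  have hC0 : 0 ≤ Cw := by
    have := (h0 0 ⟨le_rfl, one_pos⟩).trans (by simpa using hC 1 le_rfl)
    exact this
  obtain ⟨τ₁, h1⟩ := upper (a := a) h0 hw hab hC0 hC (le_max_right K 0) (N₀ := N₀)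
    (fun N hN => (hS N hN).trans (mul_le_mul_of_nonneg_right (le_max_left _ _) (Real.sqrt_nonneg _))) hδ0 hδ
  obtain ⟨τ₂, h2⟩ := fub (a := a) h0 hw hub hab hC0 hC hδ0 hδ
  refine ⟨max τ₁ τ₂, fun τ hτ => ?_⟩
  obtain ⟨h3, h4⟩ := h2 τ ((le_max_right _ _).trans hτ)
  have he : Dl (ha a δ) w τ = fun lam : ℝ => ∫ u : ℝ, gt δ u * (Real.exp (-(τ + u) / 2) *
        (AA a (Real.exp (τ + u)) - AA a (Ac w lam * Real.exp (τ + u)))) := funext fun lam => Dl_ha hab δ w τ lam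
  constructor
  · rw [he]; exact h3
  · rw [he, h4]
    exact h1 τ ((le_max_left _ _).trans hτ)

/-- the maximum principle for the normalised sum function -/
theorem ma_le (hab : ∀ n, |a n| ≤ 1) (h0 : ∀ t ∈ Ico (0 : ℝ) 1, 0 ≤ w t) (hw : MonotoneOn w (Ico 0 1))
    (hne : ∃ t ∈ Ico (0 : ℝ) 1, w t ≠ 0) {Cw : ℝ} (hC : ∀ N : ℕ, 1 ≤ N → w (1 - 1 / N) ≤ Cw * √N)
    {K : ℝ} {N₀ : ℕ} (hS : ∀ N : ℕ, N₀ ≤ N → S a w N ≤ K * √N) :
    ∃ K' : ℝ, 0 ≤ K' ∧ ∀ t : ℝ, ma a t ≤ K' := by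
  obtain ⟨K', hK', h⟩ := max_pr (a := a) h0 hw hab hne hC (K := K) (N₀ := N₀) hS
  refine ⟨K', hK', fun t => ?_⟩
  have h1 := h ⌊Real.exp t⌋₊
  have h2 : √((⌊Real.exp t⌋₊ : ℕ) : ℝ) ≤ √(Real.exp t) := Real.sqrt_le_sqrt (Nat.floor_le (Real.exp_pos _).le)
  unfold ma AA
  calc (∑ n ∈ Finset.Icc 1 ⌊Real.exp t⌋₊, a n) * Real.exp (-t / 2)
      ≤ (K' * √(Real.exp t)) * Real.exp (-t / 2) :=
        mul_le_mul_of_nonneg_right (h1.trans (mul_le_mul_of_nonneg_left h2 hK')) (Real.exp_pos _).le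
    _ = K' := by
        rw [← Real.exp_half, mul_assoc, ← Real.exp_add, neg_div, add_neg_cancel, Real.exp_zero, mul_one]

/-- one-sided bound of the smoothed function -/
theorem ha_le (hab : ∀ n, |a n| ≤ 1) {K : ℝ} (hK : ∀ x, ma a x ≤ K) (δ y : ℝ) :
    ha a δ y ≤ K * ∫ u, gt δ u := by
  unfold ha
  rw [← integral_const_mul]
  exact integral_mono (ma_int hab δ y) ((gt_integrable δ).const_mul _)
    fun u => mul_le_mul_of_nonneg_right (hK _) (gt_nonneg δ u)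

end Pool.Agent.Helper63.EW
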