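import Pool.Agent.Helper71.MR.Conv

/-! Edge weights: the window mean of `1/√{x}`. -/

namespace Pool.Agent.Helper63.EW

open MeasureTheory Set Filter Topology
open Pool.Agent.Helper71.MR (gt gt_cont gt_nonneg gt_zero gt_le_one gt_integrable)

/-- `1/√{x}` -/
noncomputable def fr (x : ℝ) : ℝ := (√(Int.fract x))⁻¹

theorem fr_nonneg (x : ℝ) : 0 ≤ fr x := inv_nonneg.2 (Real.sqrt_nonneg _)

theorem fr_meas : Measurable fr := by
  unfold fr
  exact (measurable_fract.sqrt).inv

theorem fr_per : Function.Periodic fr 1 := fun x => by simp [fr]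

theorem fr_ae : ∀ᵐ x : ℝ ∂volume, x ∈ Ioc (0 : ℝ) 1 → fr x = x ^ (-(1 / 2) : ℝ) := by
  have h : ∀ᵐ x : ℝ ∂volume, x ≠ 1 := by
    simp [ae_iff]
  filter_upwards [h] with x hx1 hx
  have h1 : Int.fract x = x := Int.fract_eq_self.2 ⟨hx.1.le, lt_of_le_of_ne hx.2 hx1⟩
  rw [fr, h1, Real.sqrt_eq_rpow, Real.rpow_neg hx.1.le]

theorem fr_int01 : IntervalIntegrable fr volume 0 1 := by
  have h1 : IntervalIntegrable (fun x : ℝ => x ^ (-(1 / 2) : ℝ)) volume 0 1 :=
    intervalIntegral.intervalIntegrable_rpow' (by norm_num)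
  rw [intervalIntegrable_iff_integrableOn_Ioc_of_le zero_le_one] at h1 ⊢
  refine h1.congr ?_
  rw [Filter.EventuallyEq, ae_restrict_iff' measurableSet_Ioc]
  filter_upwards [fr_ae] with x hx hx'
  exact (hx hx').symm

theorem fr_int (a b : ℝ) : IntervalIntegrable fr volume a b :=
  fr_per.intervalIntegrable₀ one_ne_zero fr_int01 a b

theorem fr_val : ∫ x in (0 : ℝ)..1, fr x = 2 := by
  have h1 : ∫ x in (0 : ℝ)..1, fr x = ∫ x in (0 : ℝ)..1, x ^ (-(1 / 2) : ℝ) := by
    apply intervalIntegral.integral_congr_ae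
    rw [Set.uIoc_of_le zero_le_one]
    exact fr_ae
  rw [h1, integral_rpow (Or.inl (by norm_num))]
  norm_num

theorem fr_n (a : ℝ) (n : ℕ) : ∫ x in a..a + n, fr x = 2 * n := by
  have h := fr_per.intervalIntegral_add_zsmul_eq (n : ℤ) a fr_int
  have h2 := fr_per.intervalIntegral_add_eq a 0
  rw [zero_add, fr_val] at h2
  rw [h2] at h
  simpa [mul_comm] using h

/-- the tent -/
theorem gt_le (δ s : ℝ) (hδ : 0 ≤ δ) : gt δ s ≤ δ / 2 := by
  unfold gt
  rcases le_total s (δ / 2) with h | h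
  · exact max_le (by linarith) ((min_le_left _ _).trans h)
  · exact max_le (by linarith) ((min_le_right _ _).trans (by linarith))

theorem gt_int_ge {δ : ℝ} (hδ : 0 ≤ δ) : δ ^ 2 / 4 ≤ ∫ u : ℝ, gt δ u := by
  have h1 : ∫ u in (0 : ℝ)..(δ / 2), u ≤ ∫ u in (0 : ℝ)..(δ / 2), gt δ u := by
    apply intervalIntegral.integral_mono_on (by linarith) (continuous_id.intervalIntegrable _ _)
      ((gt_cont δ).intervalIntegrable _ _)
    intro x hx
    unfold gt
    have h := hx.2
    exact le_max_of_le_right (le_min le_rfl (by simp only [id]; linarith))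
  have h2 : ∫ u in (δ / 2)..δ, (δ - u) ≤ ∫ u in (δ / 2)..δ, gt δ u := by
    apply intervalIntegral.integral_mono_on (by linarith) (by
      apply Continuous.intervalIntegrable; fun_prop) ((gt_cont δ).intervalIntegrable _ _)
    intro x hx
    unfold gt
    exact le_max_of_le_right (le_min (by linarith [hx.1]) le_rfl)
  have h3 : ∫ u in (0 : ℝ)..δ, gt δ u ≤ ∫ u : ℝ, gt δ u := by
    rw [intervalIntegral.integral_of_le hδ]
    exact setIntegral_le_integral (gt_integrable δ) (Eventually.of_forall fun u => gt_nonneg δ u)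
  have h4 := intervalIntegral.integral_add_adjacent_intervals
    ((gt_cont δ).intervalIntegrable (μ := volume) 0 (δ / 2)) ((gt_cont δ).intervalIntegrable (δ / 2) δ)
  have h5 : ∫ u in (0 : ℝ)..(δ / 2), u = δ ^ 2 / 8 := by
    rw [integral_id]; ring
  have h6 : ∫ u in (δ / 2)..δ, (δ - u) = δ ^ 2 / 8 := by
    rw [intervalIntegral.integral_sub (by simp) (by simp), integral_id, intervalIntegral.integral_const]
    simp only [smul_eq_mul]
    ring
  linarith

theorem fract_int {δ : ℝ} (hδ0 : 0 < δ) (hδ : δ ≤ 1) : ∃ τ₀ : ℝ, ∀ τ, τ₀ ≤ τ →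
    Integrable (fun s : ℝ => gt δ s * fr (Real.exp (τ + s))) ∧
      ∫ s : ℝ, gt δ s * fr (Real.exp (τ + s)) ≤ 12 * ∫ u : ℝ, gt δ u := by
  refine ⟨Real.log (1 / δ), fun τ hτ => ?_⟩
  have he : 1 / δ ≤ Real.exp τ := by
    rwa [← Real.log_le_iff_le_exp (by positivity)]
  set f : ℝ → ℝ := fun s => Real.exp (τ + s) with hf
  have hf' : ∀ s ∈ Icc (0 : ℝ) δ, HasDerivWithinAt f (Real.exp (τ + s)) (Icc 0 δ) s := fun s _ => by
    have h1 : HasDerivAt (fun s : ℝ => τ + s) 1 s := (hasDerivAt_id s).const_add τ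
    have h2 := h1.exp
    rw [mul_one] at h2
    exact h2.hasDerivWithinAt
  have hinj : InjOn f (Icc (0 : ℝ) δ) := fun x _ y _ h => by
    have := Real.exp_injective h
    linarith
  have himg : f '' Icc (0 : ℝ) δ ⊆ Icc (Real.exp τ) (Real.exp τ + (⌈Real.exp (τ + δ) - Real.exp τ⌉₊ : ℕ)) := by
    rintro _ ⟨s, hs, rfl⟩
    refine ⟨Real.exp_le_exp.2 (by linarith [hs.1]), ?_⟩
    have h1 : Real.exp (τ + s) ≤ Real.exp (τ + δ) := Real.exp_le_exp.2 (by linarith [hs.2])
    have h2 := Nat.le_ceil (Real.exp (τ + δ) - Real.exp τ)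
    show Real.exp (τ + s) ≤ _
    linarith
  set n := ⌈Real.exp (τ + δ) - Real.exp τ⌉₊ with hn
  have hle : Real.exp τ ≤ Real.exp τ + (n : ℕ) := by
    have : (0 : ℝ) ≤ n := Nat.cast_nonneg _
    linarith
  have hi1 : IntegrableOn fr (Icc (Real.exp τ) (Real.exp τ + (n : ℕ))) := by
    rw [integrableOn_Icc_iff_integrableOn_Ioc, ← intervalIntegrable_iff_integrableOn_Ioc_of_le hle]
    exact fr_int _ _
  have hi2 : IntegrableOn fr (f '' Icc (0 : ℝ) δ) := hi1.mono_set himg
  have hi3 : IntegrableOn (fun s => |Real.exp (τ + s)| • fr (f s)) (Icc (0 : ℝ) δ) :=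
    (integrableOn_image_iff_integrableOn_abs_deriv_smul measurableSet_Icc hf' hinj fr).1 hi2
  have hval : ∫ s in Icc (0 : ℝ) δ, |Real.exp (τ + s)| • fr (f s) ≤ 2 * n := by
    rw [← integral_image_eq_integral_abs_deriv_smul measurableSet_Icc hf' hinj fr, ← fr_n (Real.exp τ) n,
      intervalIntegral.integral_of_le hle, ← integral_Icc_eq_integral_Ioc]
    exact setIntegral_mono_set hi1 (Eventually.of_forall fun x => fr_nonneg x) himg.eventuallyLE
  -- the comparison
  have hbd : ∀ s, gt δ s * fr (Real.exp (τ + s)) ≤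
      (Icc (0 : ℝ) δ).indicator (fun s => δ / 2 * Real.exp (-τ) * (|Real.exp (τ + s)| • fr (f s))) s := by
    intro s
    by_cases hs : s ∈ Icc (0 : ℝ) δ
    · rw [indicator_of_mem hs, abs_of_pos (Real.exp_pos _), smul_eq_mul]
      have h1 : 1 ≤ Real.exp (-τ) * Real.exp (τ + s) := by
        rw [← Real.exp_add]
        exact Real.one_le_exp (by linarith [hs.1])
      have h2 := gt_le δ s hδ0.le
      have h3 := fr_nonneg (Real.exp (τ + s))
      calc gt δ s * fr (Real.exp (τ + s)) ≤ δ / 2 * fr (Real.exp (τ + s)) := mul_le_mul_of_nonneg_right h2 h3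
        _ ≤ (Real.exp (-τ) * Real.exp (τ + s)) * (δ / 2 * fr (Real.exp (τ + s))) := by
            have : 0 ≤ δ / 2 * fr (Real.exp (τ + s)) := by positivity
            nlinarith
        _ = _ := by rw [hf]; ring
    · rw [indicator_of_notMem hs, gt_zero, zero_mul]
      rw [mem_Icc, not_and_or, not_le, not_le] at hs
      exact hs.imp le_of_lt le_of_lt
  have hnn : ∀ s, 0 ≤ gt δ s * fr (Real.exp (τ + s)) := fun s => mul_nonneg (gt_nonneg _ _) (fr_nonneg _)
  have hi4 : Integrable ((Icc (0 : ℝ) δ).indicator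
      (fun s => δ / 2 * Real.exp (-τ) * (|Real.exp (τ + s)| • fr (f s)))) :=
    (integrable_indicator_iff measurableSet_Icc).2 (Integrable.const_mul hi3 _)
  have hi5 : Integrable (fun s : ℝ => gt δ s * fr (Real.exp (τ + s))) := by
    refine Integrable.mono' hi4 ?_ ?_
    · exact ((gt_cont δ).measurable.mul (fr_meas.comp (by fun_prop))).aestronglyMeasurable
    · filter_upwards with s
      rw [Real.norm_of_nonneg (hnn s)]
      exact hbd s
  refine ⟨hi5, ?_⟩
  have h1 : ∫ s : ℝ, gt δ s * fr (Real.exp (τ + s)) ≤ δ / 2 * Real.exp (-τ) * (2 * n) := by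
    calc ∫ s : ℝ, gt δ s * fr (Real.exp (τ + s)) ≤ ∫ s, (Icc (0 : ℝ) δ).indicator
          (fun s => δ / 2 * Real.exp (-τ) * (|Real.exp (τ + s)| • fr (f s))) s := integral_mono hi5 hi4 hbd
      _ = δ / 2 * Real.exp (-τ) * ∫ s in Icc (0 : ℝ) δ, (|Real.exp (τ + s)| • fr (f s)) := by
          rw [integral_indicator measurableSet_Icc, integral_const_mul]
      _ ≤ _ := mul_le_mul_of_nonneg_left hval (by positivity)
  have h2 : (n : ℝ) ≤ Real.exp (τ + δ) - Real.exp τ + 1 := by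
    refine (Nat.ceil_lt_add_one ?_).le
    have := Real.exp_le_exp.2 (by linarith : τ ≤ τ + δ)
    linarith
  have h3 : Real.exp (-τ) * n ≤ 3 * δ := by
    have h4 : Real.exp (-τ) * (Real.exp (τ + δ) - Real.exp τ + 1) = Real.exp δ - 1 + Real.exp (-τ) := by
      rw [mul_add, mul_sub, ← Real.exp_add, ← Real.exp_add]
      simp
    have h5 : Real.exp δ - 1 ≤ 2 * δ := by
      have h6 := (abs_le.1 (Real.abs_exp_sub_one_sub_id_le (x := δ) (by rw [abs_of_pos hδ0]; exact hδ))).2
      nlinarith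
    have h7 : Real.exp (-τ) ≤ δ := by
      rw [Real.exp_neg]
      rw [inv_le_comm₀ (Real.exp_pos _) hδ0]
      simpa using he
    calc Real.exp (-τ) * n ≤ Real.exp (-τ) * (Real.exp (τ + δ) - Real.exp τ + 1) :=
          mul_le_mul_of_nonneg_left h2 (Real.exp_pos _).le
      _ = Real.exp δ - 1 + Real.exp (-τ) := h4
      _ ≤ 3 * δ := by linarith
  have h8 := gt_int_ge hδ0.le
  calc _ ≤ δ / 2 * Real.exp (-τ) * (2 * n) := h1
    _ = δ * (Real.exp (-τ) * n) := by ring
    _ ≤ δ * (3 * δ) := mul_le_mul_of_nonneg_left h3 hδ0.le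
    _ = 12 * (δ ^ 2 / 4) := by ring
    _ ≤ _ := by linarith

end Pool.Agent.Helper63.EW
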