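import Pool.Agent.Helper63.EW.Up
import Pool.Agent.Helper95.EW.Lay

/-! Edge weights: Fubini over the levels. -/

namespace Pool.Agent.Helper63.EW

open MeasureTheory Set Filter Topology
open Pool.Agent.Helper95.EW
open Pool.Agent.Helper71.MR (gt gt_cont gt_nonneg gt_zero gt_le_one gt_integrable)

variable {a : ℕ → ℝ} {w : ℝ → ℝ}

/-- the measure of the levels which the weight passes before `t` -/
noncomputable def wl (w : ℝ → ℝ) (t : ℝ) : ℝ := volume.real {lam : ℝ | 0 < lam ∧ Ac w lam < t}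

theorem wl_nonneg (t : ℝ) : 0 ≤ wl w t := measureReal_nonneg

theorem wl_eq (hw : MonotoneOn w (Ico 0 1)) (h0 : ∀ t ∈ Ico (0:ℝ) 1, 0 ≤ w t)
    (hub : ∀ B : ℝ, ∃ t ∈ Ico (0:ℝ) 1, B < w t) {t : ℝ} (ht : t ∈ Ioo (0 : ℝ) 1)
    (hc : ContinuousWithinAt w (Ico 0 1 ∩ Iio t) t) : wl w t = w t := by
  refine le_antisymm (real_le hw h0 hub ht.1.le ht.2) ?_
  have hne : (𝓝[Ico 0 1 ∩ Iio t] t).NeBot := by
    have : Ioo 0 t ⊆ Ico 0 1 ∩ Iio t := fun s hs => ⟨⟨hs.1.le, hs.2.trans ht.2⟩, hs.2⟩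
    have h1 : (𝓝[Ioo 0 t] t).NeBot := by
      rw [nhdsWithin_Ioo_eq_nhdsLT ht.1]
      infer_instance
    exact h1.mono (nhdsWithin_mono _ this)
  refine le_of_tendsto hc ?_
  filter_upwards [self_mem_nhdsWithin] with s hs
  exact real_ge hw hub hs.1 hs.2 ht.2

/-- the exceptional set is countable -/
theorem wl_countable (hw : MonotoneOn w (Ico 0 1)) (h0 : ∀ t ∈ Ico (0:ℝ) 1, 0 ≤ w t)
    (hub : ∀ B : ℝ, ∃ t ∈ Ico (0:ℝ) 1, B < w t) : {t : ℝ | t ∈ Ioo (0 : ℝ) 1 ∧ wl w t ≠ w t}.Countable := by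
  refine (hw.countable_not_continuousWithinAt_Iio).mono ?_
  rintro t ⟨ht, hne⟩
  refine ⟨⟨ht.1.le, ht.2⟩, fun hc => hne (wl_eq hw h0 hub ht hc)⟩

theorem wl_ae (hw : MonotoneOn w (Ico 0 1)) (h0 : ∀ t ∈ Ico (0:ℝ) 1, 0 ≤ w t)
    (hub : ∀ B : ℝ, ∃ t ∈ Ico (0:ℝ) 1, B < w t) (τ : ℝ) : ∀ᵐ u : ℝ ∂volume, ∀ n : ℕ, 1 ≤ n →
      (n : ℝ) < Real.exp (τ + u) → wl w (n / Real.exp (τ + u)) = w (n / Real.exp (τ + u)) := by
  rw [ae_all_iff]
  intro n
  rcases Nat.eq_zero_or_pos n with rfl | hn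
  · filter_upwards with u h
    omega
  have hn0 : (0 : ℝ) < n := by exact_mod_cast hn
  have hc : ((fun t : ℝ => Real.log (n / t) - τ) '' {t : ℝ | t ∈ Ioo (0 : ℝ) 1 ∧ wl w t ≠ w t}).Countable :=
    (wl_countable hw h0 hub).image _
  filter_upwards [hc.ae_notMem volume] with u hu _ hnu
  by_contra hne
  apply hu
  refine ⟨n / Real.exp (τ + u), ⟨⟨by positivity, ?_⟩, hne⟩, ?_⟩
  · rw [div_lt_one (Real.exp_pos _)]
    exact hnu
  · show Real.log (n / (n / Real.exp (τ + u))) - τ = u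
    rw [div_div_cancel₀ hn0.ne', Real.log_exp]
    ring

/-- sum function -/
noncomputable def AA (a : ℕ → ℝ) (x : ℝ) : ℝ := ∑ n ∈ Finset.Icc 1 ⌊x⌋₊, a n

theorem AA_meas (a : ℕ → ℝ) : Measurable (AA a) := by
  have h : AA a = (fun N : ℕ => ∑ n ∈ Finset.Icc 1 N, a n) ∘ Nat.floor := rfl
  rw [h]
  exact (measurable_from_nat).comp Nat.measurable_floor

theorem AA_diff (a : ℕ → ℝ) {c x : ℝ} (hx : 0 < x) (hc0 : 0 ≤ c) (hc : c ≤ 1) :
    AA a x - AA a (c * x) = ∑ n ∈ Finset.Icc 1 ⌊x⌋₊, a n * (if c < n / x then 1 else 0) := by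
  have hcx : c * x ≤ x := by nlinarith
  have h1 : AA a (c * x) = ∑ n ∈ Finset.Icc 1 ⌊x⌋₊, a n * (if c < n / x then 0 else 1) := by
    rw [AA]
    have h2 : Finset.Icc 1 ⌊c * x⌋₊ = (Finset.Icc 1 ⌊x⌋₊).filter (fun n : ℕ => ¬ c < (n : ℝ) / x) := by
      ext n
      simp only [Finset.mem_Icc, Finset.mem_filter, not_lt]
      rw [div_le_iff₀ hx]
      constructor
      · rintro ⟨h3, h4⟩
        have h5 : (n : ℝ) ≤ c * x := (Nat.le_floor_iff (by positivity)).1 h4
        exact ⟨⟨h3, (Nat.le_floor_iff hx.le).2 (h5.trans hcx)⟩, h5⟩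
      · rintro ⟨⟨h3, _⟩, h5⟩
        exact ⟨h3, (Nat.le_floor_iff (by positivity)).2 h5⟩
    rw [h2, Finset.sum_filter]
    refine Finset.sum_congr rfl fun n _ => ?_
    by_cases h : c < n / x <;> simp [h]
  rw [h1, AA, ← Finset.sum_sub_distrib]
  refine Finset.sum_congr rfl fun n _ => ?_
  by_cases h : c < n / x <;> simp [h]

theorem ind_int (hw : MonotoneOn w (Ico 0 1)) (hub : ∀ B : ℝ, ∃ t ∈ Ico (0:ℝ) 1, B < w t) {t : ℝ} (ht : t < 1) :
    Integrable (fun lam : ℝ => if Ac w lam < t then (1 : ℝ) else 0) (volume.restrict (Ioi 0)) ∧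
      ∫ lam in Ioi (0 : ℝ), (if Ac w lam < t then (1 : ℝ) else 0) = wl w t := by
  have hs : MeasurableSet {lam : ℝ | Ac w lam < t} := measurableSet_lt (Ac_meas hub) measurable_const
  have he : (fun lam : ℝ => if Ac w lam < t then (1 : ℝ) else 0) = {lam : ℝ | Ac w lam < t}.indicator 1 := by
    ext lam
    simp [indicator]
  have hinter : {lam : ℝ | Ac w lam < t} ∩ Ioi 0 = {lam : ℝ | 0 < lam ∧ Ac w lam < t} := by
    ext lam
    simp [and_comm]
  rw [he]
  constructor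
  · rw [integrable_indicator_iff hs]
    refine integrableOn_const ?_ (by simp)
    rw [Measure.restrict_apply hs, hinter]
    exact fin_vol hw hub ht
  · rw [integral_indicator_one hs, measureReal_restrict_apply hs, hinter, wl]

/-- the `λ`-integral for fixed `x` -/
theorem lam_int (hw : MonotoneOn w (Ico 0 1)) (hub : ∀ B : ℝ, ∃ t ∈ Ico (0:ℝ) 1, B < w t) (b : ℕ → ℝ)
    {x : ℝ} (hx : 0 < x) (hxi : Int.fract x ≠ 0) :
    Integrable (fun lam : ℝ => ∑ n ∈ Finset.Icc 1 ⌊x⌋₊, b n * (if Ac w lam < n / x then 1 else 0))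
      (volume.restrict (Ioi 0)) ∧
    ∫ lam in Ioi (0 : ℝ), ∑ n ∈ Finset.Icc 1 ⌊x⌋₊, b n * (if Ac w lam < n / x then 1 else 0) =
      ∑ n ∈ Finset.Icc 1 ⌊x⌋₊, b n * wl w (n / x) := by
  have hlt : ∀ n ∈ Finset.Icc 1 ⌊x⌋₊, (n : ℝ) / x < 1 := by
    intro n hn
    rw [Finset.mem_Icc] at hn
    rw [div_lt_one hx]
    have h1 : (n : ℝ) ≤ x := (Nat.le_floor_iff hx.le).1 hn.2
    refine lt_of_le_of_ne h1 fun h => hxi ?_
    rw [← h]
    exact Int.fract_natCast n
  constructor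
  · exact integrable_finsetSum _ fun n hn => (ind_int hw hub (hlt n hn)).1.const_mul _
  · rw [integral_finsetSum _ fun n hn => (ind_int hw hub (hlt n hn)).1.const_mul _]
    refine Finset.sum_congr rfl fun n hn => ?_
    rw [integral_const_mul, (ind_int hw hub (hlt n hn)).2]

/-- **Fubini over the levels.** -/
theorem fub (h0 : ∀ t ∈ Set.Ico (0 : ℝ) 1, 0 ≤ w t) (hw : MonotoneOn w (Set.Ico 0 1))
    (hub : ∀ B : ℝ, ∃ t ∈ Ico (0:ℝ) 1, B < w t) (ha : ∀ n, |a n| ≤ 1)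
    {C : ℝ} (hC0 : 0 ≤ C) (hC : ∀ N : ℕ, 1 ≤ N → w (1 - 1 / N) ≤ C * √N) {δ : ℝ} (hδ0 : 0 < δ) (hδ : δ ≤ 1) :
    ∃ τ₀ : ℝ, ∀ τ, τ₀ ≤ τ →
      IntegrableOn (fun lam : ℝ => ∫ u : ℝ, gt δ u * (Real.exp (-(τ + u) / 2) *
        (AA a (Real.exp (τ + u)) - AA a (Ac w lam * Real.exp (τ + u))))) (Ioi 0) ∧
      ∫ lam in Ioi (0 : ℝ), ∫ u : ℝ, gt δ u * (Real.exp (-(τ + u) / 2) *
        (AA a (Real.exp (τ + u)) - AA a (Ac w lam * Real.exp (τ + u)))) =
        ∫ u : ℝ, gt δ u * (Real.exp (-(τ + u) / 2) * R a w (Real.exp (τ + u))) := by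
  obtain ⟨τ₀, hτ₀⟩ := fract_int hδ0 hδ
  refine ⟨τ₀, fun τ hτ => ?_⟩
  obtain ⟨hfr, -⟩ := hτ₀ τ hτ
  set F : ℝ × ℝ → ℝ := fun p => gt δ p.1 * (Real.exp (-(τ + p.1) / 2) *
    (AA a (Real.exp (τ + p.1)) - AA a (Ac w p.2 * Real.exp (τ + p.1)))) with hF
  have hFm : Measurable F := by
    have h1 : Measurable fun p : ℝ × ℝ => Ac w p.2 := (Ac_meas hub).comp measurable_snd
    have h2 : Measurable fun p : ℝ × ℝ => Real.exp (τ + p.1) := by fun_prop
    have h3 : Measurable fun p : ℝ × ℝ => gt δ p.1 := (gt_cont δ).measurable.comp measurable_fst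
    have h4 : Measurable fun p : ℝ × ℝ => Real.exp (-(τ + p.1) / 2) := by fun_prop
    exact h3.mul (h4.mul (((AA_meas a).comp h2).sub ((AA_meas a).comp (h1.mul h2))))
  -- the inner form
  have hform : ∀ u lam : ℝ, F (u, lam) = gt δ u * (Real.exp (-(τ + u) / 2) *
      ∑ n ∈ Finset.Icc 1 ⌊Real.exp (τ + u)⌋₊, a n * (if Ac w lam < n / Real.exp (τ + u) then 1 else 0)) := by
    intro u lam
    rw [hF]
    simp only
    rw [AA_diff a (Real.exp_pos _) (Ac_nonneg w lam) (Ac_lt_one hub lam).le]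
  have hint1 : ∀ᵐ u : ℝ ∂volume, Integrable (fun lam => F (u, lam)) (volume.restrict (Ioi 0)) := by
    filter_upwards [fract_ae τ] with u hu
    simp_rw [hform]
    exact ((lam_int hw hub a (Real.exp_pos _) hu).1.const_mul _).const_mul _
  have hval : ∀ᵐ u : ℝ ∂volume, ∫ lam in Ioi (0 : ℝ), F (u, lam) =
      gt δ u * (Real.exp (-(τ + u) / 2) * R a w (Real.exp (τ + u))) := by
    filter_upwards [fract_ae τ, wl_ae hw h0 hub τ] with u hu hwl
    simp_rw [hform]
    rw [integral_const_mul, integral_const_mul, (lam_int hw hub a (Real.exp_pos _) hu).2, R]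
    congr 2
    refine Finset.sum_congr rfl fun n hn => ?_
    rw [Finset.mem_Icc] at hn
    have h1 : (n : ℝ) ≤ Real.exp (τ + u) := (Nat.le_floor_iff (Real.exp_pos _).le).1 hn.2
    rw [hwl n hn.1 (lt_of_le_of_ne h1 fun h => hu (by rw [← h]; exact Int.fract_natCast n))]
  have hint2 : Integrable (fun u : ℝ => ∫ lam in Ioi (0 : ℝ), ‖F (u, lam)‖) := by
    have hmaj : Integrable (fun u : ℝ => (2 * C * Real.exp (τ + 1)) * (gt δ u * fr (Real.exp (τ + u)))) :=
      hfr.const_mul _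
    refine Integrable.mono' hmaj ?_ ?_
    · exact (hFm.norm.stronglyMeasurable.integral_prod_right').aestronglyMeasurable
    · filter_upwards [fract_ae τ] with u hu
      rw [Real.norm_of_nonneg (integral_nonneg fun _ => norm_nonneg _)]
      rcases le_or_gt u 0 with hs0 | hs0
      · have : ∀ lam, F (u, lam) = 0 := fun lam => by rw [hform, gt_zero (Or.inl hs0), zero_mul]
        simp [this, gt_zero (δ := δ) (Or.inl hs0)]
      rcases le_or_gt δ u with hs1 | hs1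
      · have : ∀ lam, F (u, lam) = 0 := fun lam => by rw [hform, gt_zero (Or.inr hs1), zero_mul]
        simp [this, gt_zero (δ := δ) (Or.inr hs1)]
      set x := Real.exp (τ + u) with hx
      have hx0 : 0 < x := Real.exp_pos _
      have hNx : ((⌊x⌋₊ : ℕ) : ℝ) < x := by
        refine lt_of_le_of_ne (Nat.floor_le hx0.le) fun h => hu ?_
        rw [← h]
        exact Int.fract_natCast _
      have hfx : Int.fract x = x - (⌊x⌋₊ : ℕ) := by
        rw [Int.fract, ← natCast_floor_eq_intCast_floor hx0.le]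
      have hle : ∀ lam : ℝ, ‖F (u, lam)‖ ≤ gt δ u * (Real.exp (-(τ + u) / 2) *
          ∑ n ∈ Finset.Icc 1 ⌊x⌋₊, (fun _ => (1 : ℝ)) n * (if Ac w lam < n / x then 1 else 0)) := by
        intro lam
        rw [hform, norm_mul, norm_mul, Real.norm_of_nonneg (gt_nonneg _ _), Real.norm_of_nonneg (Real.exp_pos _).le]
        refine mul_le_mul_of_nonneg_left (mul_le_mul_of_nonneg_left ?_ (Real.exp_pos _).le) (gt_nonneg _ _)
        refine (norm_sum_le _ _).trans (Finset.sum_le_sum fun n _ => ?_)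
        rw [norm_mul]
        split_ifs
        · simpa using ha n
        · simp
      have hI := lam_int hw hub (fun _ => (1 : ℝ)) hx0 hu
      have h1 : ∫ lam in Ioi (0 : ℝ), ‖F (u, lam)‖ ≤ gt δ u * (Real.exp (-(τ + u) / 2) *
          ∑ n ∈ Finset.Icc 1 ⌊x⌋₊, (fun _ => (1 : ℝ)) n * wl w (n / x)) := by
        rw [← hI.2, ← integral_const_mul, ← integral_const_mul]
        refine integral_mono_of_nonneg (Eventually.of_forall fun _ => norm_nonneg _)
          ((hI.1.const_mul _).const_mul _) (Eventually.of_forall hle)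
      refine h1.trans ?_
      have h2 : ∑ n ∈ Finset.Icc 1 ⌊x⌋₊, (fun _ => (1 : ℝ)) n * wl w (n / x) ≤ x * (2 * C * √x * fr x) := by
        calc ∑ n ∈ Finset.Icc 1 ⌊x⌋₊, (fun _ => (1 : ℝ)) n * wl w (n / x)
            ≤ ∑ n ∈ Finset.Icc 1 ⌊x⌋₊, (2 * C * √x * fr x) := by
              refine Finset.sum_le_sum fun n hn => ?_
              rw [Finset.mem_Icc] at hn
              rw [one_mul]
              have h3 : ((n : ℝ) / x) ∈ Ico (0 : ℝ) 1 := mem_domR hNx hn.2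
              have h4 : wl w (n / x) ≤ w (n / x) := real_le hw h0 hub h3.1 h3.2
              have h5 : w (n / x) ≤ w ((⌊x⌋₊ : ℕ) / x) := by
                refine hw h3 (mem_domR hNx le_rfl) ?_
                have : (n : ℝ) ≤ (⌊x⌋₊ : ℕ) := by exact_mod_cast hn.2
                gcongr
              have h6 := edge_le' hw hC hC0 hNx
              refine (h4.trans (h5.trans h6)).trans (le_of_eq ?_)
              rw [fr, hfx, div_eq_mul_inv]
          _ = (⌊x⌋₊ : ℝ) * (2 * C * √x * fr x) := by simp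
          _ ≤ x * (2 * C * √x * fr x) := by
              refine mul_le_mul_of_nonneg_right (Nat.floor_le hx0.le) ?_
              have := fr_nonneg x
              positivity
      have h3 : Real.exp (-(τ + u) / 2) * √x = 1 := by
        rw [hx, ← Real.exp_half, ← Real.exp_add, neg_div, neg_add_cancel, Real.exp_zero]
      have h4 : x ≤ Real.exp (τ + 1) := Real.exp_le_exp.2 (by linarith)
      calc gt δ u * (Real.exp (-(τ + u) / 2) * ∑ n ∈ Finset.Icc 1 ⌊x⌋₊, (fun _ => (1 : ℝ)) n * wl w (n / x))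
          ≤ gt δ u * (Real.exp (-(τ + u) / 2) * (x * (2 * C * √x * fr x))) := by
            refine mul_le_mul_of_nonneg_left (mul_le_mul_of_nonneg_left h2 (Real.exp_pos _).le) (gt_nonneg _ _)
        _ = (Real.exp (-(τ + u) / 2) * √x) * (x * (2 * C * (gt δ u * fr x))) := by ring
        _ = x * (2 * C * (gt δ u * fr x)) := by rw [h3, one_mul]
        _ ≤ Real.exp (τ + 1) * (2 * C * (gt δ u * fr x)) := by
            refine mul_le_mul_of_nonneg_right h4 ?_
            have := fr_nonneg x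
            have := gt_nonneg δ u
            positivity
        _ = (2 * C * Real.exp (τ + 1)) * (gt δ u * fr x) := by ring
  have hFi : Integrable F (volume.prod (volume.restrict (Ioi 0))) :=
    (integrable_prod_iff hFm.aestronglyMeasurable).2 ⟨hint1, hint2⟩
  constructor
  · exact hFi.integral_prod_right
  · have h1 := integral_integral_swap (f := fun u lam => F (u, lam)) hFi
    rw [← h1]
    exact integral_congr_ae hval

end Pool.Agent.Helper63.EW
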