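import Mathlib

/-! Edge weights, block B1: the maximum principle.  If the sums `∑_{n<N} a(n) w(n/N)` with a monotone weight `w` are at
most `K √N`, then so are the sums `∑_{n≤N} a(n)`, up to the constant. -/

namespace Pool.Agent.Helper63.EW

open Finset

/-- `∑_{n < N} a(n) w(n/N)` -/
noncomputable def S (a : ℕ → ℝ) (w : ℝ → ℝ) (N : ℕ) : ℝ := ∑ n ∈ Finset.Ico 1 N, a n * w (n / N)

theorem abel (a v : ℕ → ℝ) {k : ℕ} (hk : 1 ≤ k) :
    ∑ n ∈ Ico 1 (k + 1), a n * v n =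
      (∑ n ∈ Icc 1 k, a n) * v k - ∑ n ∈ Ico 1 k, (∑ i ∈ Icc 1 n, a i) * (v (n + 1) - v n) := by
  induction k, hk using Nat.le_induction with
  | base => simp
  | succ k hk ih =>
    rw [Finset.sum_Ico_succ_top (by omega), ih, Finset.sum_Ico_succ_top (by omega),
      Finset.sum_Icc_succ_top (by omega)]
    ring

theorem tele (v : ℕ → ℝ) {k : ℕ} (hk : 1 ≤ k) : ∑ n ∈ Ico 1 k, (v (n + 1) - v n) = v k - v 1 :=
  Finset.sum_Ico_sub v hk

section

variable {a : ℕ → ℝ} {w : ℝ → ℝ}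

theorem mem_dom {n N : ℕ} (h : n < N) : ((n : ℝ) / N) ∈ Set.Ico (0 : ℝ) 1 := by
  have hN : (0 : ℝ) < N := by exact_mod_cast (by omega : 0 < N)
  refine ⟨by positivity, ?_⟩
  rw [div_lt_one hN]
  exact_mod_cast h

theorem v_mono (hw : MonotoneOn w (Set.Ico 0 1)) {i j N : ℕ} (hij : i ≤ j) (hj : j < N) :
    w (i / N) ≤ w (j / N) := by
  refine hw (mem_dom (by omega)) (mem_dom hj) ?_
  have hij' : (i : ℝ) ≤ j := by exact_mod_cast hij
  gcongr

/-- The step of the maximum principle. -/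
theorem step (h0 : ∀ t ∈ Set.Ico (0 : ℝ) 1, 0 ≤ w t) (hw : MonotoneOn w (Set.Ico 0 1)) (ha : ∀ n, |a n| ≤ 1)
    {t : ℝ} (ht : t ∈ Set.Ico (0 : ℝ) 1) {N : ℕ} (hN : 2 ≤ (1 - t) * N) {m : ℝ} (hm : 0 ≤ m)
    (hn : ∀ n < N, ∑ i ∈ Icc 1 n, a i ≤ m * √n) (hNN : ∑ i ∈ Icc 1 N, a i = m * √N) :
    m * ((1 - √t) * w t) * √N - w ((N - 1 : ℕ) / N) ≤ S a w N := by
  have hN2 : 2 ≤ N := by
    have : (2 : ℝ) ≤ N := by nlinarith [ht.1, (Nat.cast_nonneg N : (0 : ℝ) ≤ N)]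
    exact_mod_cast this
  obtain ⟨k, rfl⟩ : ∃ k, N = k + 1 := ⟨N - 1, by omega⟩
  have hk : 1 ≤ k := by omega
  simp only [Nat.add_sub_cancel]
  set v : ℕ → ℝ := fun n => w (n / (k + 1 : ℕ)) with hv
  have hvm : ∀ i j, i ≤ j → j < k + 1 → v i ≤ v j := fun i j h1 h2 => v_mono hw h1 h2
  have hS : S a w (k + 1) = (∑ n ∈ Icc 1 k, a n) * v k - ∑ n ∈ Ico 1 k, (∑ i ∈ Icc 1 n, a i) * (v (n + 1) - v n) :=
    abel a v hk
  -- the index of `t`
  set j := ⌈t * (k + 1 : ℕ)⌉₊ with hj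
  have hNpos : (0 : ℝ) < (k + 1 : ℕ) := by positivity
  have hj1 : t * (k + 1 : ℕ) ≤ j := Nat.le_ceil _
  have hj2 : (j : ℝ) < t * (k + 1 : ℕ) + 1 := Nat.ceil_lt_add_one (by have := ht.1; positivity)
  have hjk : j ≤ k := by
    have : (j : ℝ) < k := by
      have h1 : ((k + 1 : ℕ) : ℝ) = k + 1 := by push_cast; ring
      rw [h1] at hj2 hN
      nlinarith
    exact_mod_cast this.le
  have htv : w t ≤ v j := by
    refine hw ht (mem_dom (by omega)) ?_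
    rw [le_div_iff₀ hNpos]
    exact hj1
  have hst : √t ≤ 1 := Real.sqrt_le_one.2 ht.2.le
  have hst0 : 0 ≤ √t := Real.sqrt_nonneg t
  -- termwise bound
  have hterm : ∀ n ∈ Ico 1 k, (∑ i ∈ Icc 1 n, a i) * (v (n + 1) - v n) ≤
      m * (√(k + 1 : ℕ) * (v (n + 1) - v n) - √(k + 1 : ℕ) * (1 - √t) * (if n < j then v (n + 1) - v n else 0)) := by
    intro n hn'
    rw [mem_Ico] at hn'
    have hd : 0 ≤ v (n + 1) - v n := sub_nonneg.2 (hvm _ _ (by omega) (by omega))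
    have h1 : (∑ i ∈ Icc 1 n, a i) * (v (n + 1) - v n) ≤ m * √n * (v (n + 1) - v n) :=
      mul_le_mul_of_nonneg_right (hn n (by omega)) hd
    refine h1.trans ?_
    rw [mul_assoc]
    refine mul_le_mul_of_nonneg_left ?_ hm
    by_cases hnj : n < j
    · rw [if_pos hnj]
      have hnt : (n : ℝ) ≤ t * (k + 1 : ℕ) := by
        have h2 : (n : ℝ) + 1 ≤ j := by exact_mod_cast hnj
        linarith
      have h3 : √n ≤ √t * √(k + 1 : ℕ) := by
        rw [← Real.sqrt_mul ht.1]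
        exact Real.sqrt_le_sqrt hnt
      nlinarith
    · rw [if_neg hnj, mul_zero, sub_zero]
      refine mul_le_mul_of_nonneg_right (Real.sqrt_le_sqrt ?_) hd
      exact_mod_cast (by omega : n ≤ k + 1)
  have hsum := Finset.sum_le_sum hterm
  rw [← Finset.mul_sum, Finset.sum_sub_distrib, ← Finset.mul_sum, ← Finset.mul_sum, tele v hk] at hsum
  have hv1 : 0 ≤ v 1 := h0 _ (mem_dom (by omega))
  have hj3 : v j ≤ v 1 + ∑ n ∈ Ico 1 k, (if n < j then v (n + 1) - v n else 0) := by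
    rcases Nat.eq_zero_or_pos j with h | h
    · have h4 : 0 ≤ ∑ n ∈ Ico 1 k, (if n < j then v (n + 1) - v n else 0) := by
        refine Finset.sum_nonneg fun n _ => ?_
        rw [if_neg (by omega)]
      have := hvm j 1 (by omega) (by omega)
      linarith
    · rw [← Finset.sum_filter]
      have h5 : (Ico 1 k).filter (fun n => n < j) = Ico 1 j := by
        ext n
        simp only [mem_filter, mem_Ico]
        omega
      rw [h5, tele v h]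
      linarith
  have hAk : m * √(k + 1 : ℕ) - 1 ≤ ∑ n ∈ Icc 1 k, a n := by
    rw [← hNN, Finset.sum_Icc_succ_top (by omega)]
    have := (abs_le.1 (ha (k + 1))).2
    linarith
  have hvk : 0 ≤ v k := h0 _ (mem_dom (by omega))
  have hAk' := mul_le_mul_of_nonneg_right hAk hvk
  have hs0 : 0 ≤ √((k + 1 : ℕ) : ℝ) := Real.sqrt_nonneg _
  rw [hS]
  have hvk' : w ((k : ℕ) / (k + 1 : ℕ)) = v k := rfl
  rw [hvk']
  have hwt : 0 ≤ w t := h0 t ht
  -- final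
  have h6 : m * √(k + 1 : ℕ) * (1 - √t) * w t ≤
      m * √(k + 1 : ℕ) * (1 - √t) * (v 1 + ∑ n ∈ Ico 1 k, (if n < j then v (n + 1) - v n else 0)) := by
    refine mul_le_mul_of_nonneg_left (htv.trans hj3) ?_
    have : 0 ≤ 1 - √t := by linarith
    positivity
  have h7 : m * √(k + 1 : ℕ) * (1 - √t) * v 1 ≤ m * √(k + 1 : ℕ) * v 1 := by
    have : 0 ≤ m * √(k + 1 : ℕ) * √t * v 1 := by positivity
    nlinarith
  nlinarith

/-- **The maximum principle.** -/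
theorem max_pr (h0 : ∀ t ∈ Set.Ico (0 : ℝ) 1, 0 ≤ w t) (hw : MonotoneOn w (Set.Ico 0 1)) (ha : ∀ n, |a n| ≤ 1)
    (hne : ∃ t ∈ Set.Ico (0 : ℝ) 1, w t ≠ 0) {C : ℝ} (hC : ∀ N : ℕ, 1 ≤ N → w (1 - 1 / N) ≤ C * √N) {K : ℝ} {N₀ : ℕ}
    (hS : ∀ N : ℕ, N₀ ≤ N → S a w N ≤ K * √N) : ∃ K' : ℝ, 0 ≤ K' ∧ ∀ N : ℕ, ∑ n ∈ Icc 1 N, a n ≤ K' * √N := by
  obtain ⟨t, ht, hwt⟩ := hne
  have hwt' : 0 < w t := lt_of_le_of_ne (h0 t ht) (Ne.symm hwt)
  have hst : √t < 1 := by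
    rw [Real.sqrt_lt' one_pos]
    simpa using ht.2
  have hc : 0 < (1 - √t) * w t := mul_pos (by linarith) hwt'
  set N₁ := max N₀ ⌈2 / (1 - t)⌉₊ with hN₁
  refine ⟨max ((K + C) / ((1 - √t) * w t)) (√N₁), le_max_of_le_right (Real.sqrt_nonneg _), fun N => ?_⟩
  set K' := max ((K + C) / ((1 - √t) * w t)) (√N₁) with hK'
  have hK0 : 0 ≤ K' := le_max_of_le_right (Real.sqrt_nonneg _)
  induction N using Nat.strong_induction_on with
  | _ N ih =>
    by_contra hlt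
    rw [not_le] at hlt
    have hN0 : N ≠ 0 := by
      rintro rfl
      simp at hlt
    have hNpos : (0 : ℝ) < N := by positivity
    have hs : 0 < √(N : ℝ) := Real.sqrt_pos.2 hNpos
    have htriv : ∑ n ∈ Icc 1 N, a n ≤ N := by
      calc ∑ n ∈ Icc 1 N, a n ≤ ∑ n ∈ Icc 1 N, (1 : ℝ) := Finset.sum_le_sum fun n _ => (abs_le.1 (ha n)).2
        _ = N := by simp
    have hbig : N₁ ≤ N := by
      by_contra hsm
      rw [not_le] at hsm
      have h1 : (N : ℝ) = √N * √N := (Real.mul_self_sqrt hNpos.le).symm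
      have h2 : √(N : ℝ) ≤ √(N₁ : ℝ) := Real.sqrt_le_sqrt (by exact_mod_cast hsm.le)
      have h3 : √(N₁ : ℝ) ≤ K' := le_max_right _ _
      nlinarith
    have hNt : 2 ≤ (1 - t) * N := by
      have h1 : 2 / (1 - t) ≤ N := (Nat.le_ceil _).trans (by exact_mod_cast (le_max_right _ _).trans hbig)
      rw [div_le_iff₀ (by linarith [ht.2])] at h1
      linarith
    set m := (∑ n ∈ Icc 1 N, a n) / √N with hm
    have hmK : K' < m := by rw [hm, lt_div_iff₀ hs]; exact hlt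
    have h1 := step h0 hw ha ht hNt (hK0.trans hmK.le)
      (fun n hn => (ih n hn).trans (mul_le_mul_of_nonneg_right hmK.le (Real.sqrt_nonneg _)))
      (by rw [hm]; field_simp)
    have h2 := hS N ((le_max_left _ _).trans hbig)
    have h3 : w ((N - 1 : ℕ) / N) ≤ C * √N := by
      have h4 : (((N - 1 : ℕ) : ℝ) / N) = 1 - 1 / N := by
        rw [Nat.cast_sub (by omega)]
        field_simp
        simp
      rw [h4]
      exact hC N (by omega)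
    have h5 : m * ((1 - √t) * w t) * √N ≤ (K + C) * √N := by linarith
    have h6 : m * ((1 - √t) * w t) ≤ K + C := le_of_mul_le_mul_right h5 hs
    have h7 : m ≤ (K + C) / ((1 - √t) * w t) := by rw [le_div_iff₀ hc]; exact h6
    exact absurd (h7.trans (le_max_left _ _)) (not_le.2 hmK)

/-- The trivial direction: `|∑_{n≤N} a(n)| ≤ K √N` gives the same for a bounded monotone weight. -/
theorem S_le_of_bdd (h0 : ∀ t ∈ Set.Ico (0 : ℝ) 1, 0 ≤ w t) (hw : MonotoneOn w (Set.Ico 0 1)) {B : ℝ}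
    (hB : ∀ t ∈ Set.Ico (0 : ℝ) 1, w t ≤ B) {K : ℝ} (hK : ∀ N : ℕ, |∑ n ∈ Icc 1 N, a n| ≤ K * √N) (N : ℕ) :
    |S a w N| ≤ 2 * K * B * √N := by
  have hK0 : 0 ≤ K := by simpa using (abs_nonneg _).trans (hK 1)
  have hB0 : 0 ≤ B := (h0 0 ⟨le_rfl, one_pos⟩).trans (hB 0 ⟨le_rfl, one_pos⟩)
  rcases Nat.lt_or_ge N 2 with h | h
  · have : Ico 1 N = ∅ := by rw [Finset.Ico_eq_empty_iff]; omega
    rw [S, this, sum_empty, abs_zero]
    positivity
  obtain ⟨k, rfl⟩ : ∃ k, N = k + 1 := ⟨N - 1, by omega⟩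
  have hk : 1 ≤ k := by omega
  set v : ℕ → ℝ := fun n => w (n / (k + 1 : ℕ)) with hv
  have hS : S a w (k + 1) = (∑ n ∈ Icc 1 k, a n) * v k - ∑ n ∈ Ico 1 k, (∑ i ∈ Icc 1 n, a i) * (v (n + 1) - v n) :=
    abel a v hk
  have hle : ∀ n ≤ k, |∑ i ∈ Icc 1 n, a i| ≤ K * √(k + 1 : ℕ) := fun n hn => (hK n).trans
    (mul_le_mul_of_nonneg_left (Real.sqrt_le_sqrt (by exact_mod_cast (by omega : n ≤ k + 1))) hK0)
  have hvk : v k ≤ B := hB _ (mem_dom (by omega))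
  have hvk0 : 0 ≤ v k := h0 _ (mem_dom (by omega))
  have hv10 : 0 ≤ v 1 := h0 _ (mem_dom (by omega))
  have h1 : |(∑ n ∈ Icc 1 k, a n) * v k| ≤ K * √(k + 1 : ℕ) * B := by
    rw [abs_mul, abs_of_nonneg hvk0]
    exact mul_le_mul (hle k le_rfl) hvk hvk0 (by positivity)
  have h2 : |∑ n ∈ Ico 1 k, (∑ i ∈ Icc 1 n, a i) * (v (n + 1) - v n)| ≤ K * √(k + 1 : ℕ) * B := by
    calc |∑ n ∈ Ico 1 k, (∑ i ∈ Icc 1 n, a i) * (v (n + 1) - v n)|
        ≤ ∑ n ∈ Ico 1 k, |(∑ i ∈ Icc 1 n, a i) * (v (n + 1) - v n)| := Finset.abs_sum_le_sum_abs _ _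
      _ ≤ ∑ n ∈ Ico 1 k, K * √(k + 1 : ℕ) * (v (n + 1) - v n) := by
          refine Finset.sum_le_sum fun n hn => ?_
          rw [mem_Ico] at hn
          have hd : 0 ≤ v (n + 1) - v n := sub_nonneg.2 (v_mono hw (by omega) (by omega))
          rw [abs_mul, abs_of_nonneg hd]
          exact mul_le_mul_of_nonneg_right (hle n (by omega)) hd
      _ = K * √(k + 1 : ℕ) * (v k - v 1) := by rw [← Finset.mul_sum, tele v hk]
      _ ≤ K * √(k + 1 : ℕ) * B := mul_le_mul_of_nonneg_left (by linarith) (by positivity)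
  rw [hS]
  calc _ ≤ |(∑ n ∈ Icc 1 k, a n) * v k| + |∑ n ∈ Ico 1 k, (∑ i ∈ Icc 1 n, a i) * (v (n + 1) - v n)| := abs_sub _ _
    _ ≤ K * √(k + 1 : ℕ) * B + K * √(k + 1 : ℕ) * B := add_le_add h1 h2
    _ = 2 * K * B * √(k + 1 : ℕ) := by ring

/-- **All bounded monotone weights are equivalent.** -/
theorem bdd_iff (h0 : ∀ t ∈ Set.Ico (0 : ℝ) 1, 0 ≤ w t) (hw : MonotoneOn w (Set.Ico 0 1)) (ha : ∀ n, |a n| ≤ 1)
    (hne : ∃ t ∈ Set.Ico (0 : ℝ) 1, w t ≠ 0) {B : ℝ} (hB : ∀ t ∈ Set.Ico (0 : ℝ) 1, w t ≤ B) :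
    (∃ K : ℝ, ∀ N : ℕ, |S a w N| ≤ K * √N) ↔ ∃ K : ℝ, ∀ N : ℕ, |∑ n ∈ Icc 1 N, a n| ≤ K * √N := by
  have hB0 : 0 ≤ B := (h0 0 ⟨le_rfl, one_pos⟩).trans (hB 0 ⟨le_rfl, one_pos⟩)
  have hC : ∀ N : ℕ, 1 ≤ N → w (1 - 1 / N) ≤ B * √N := fun N hN => by
    have hN' : (1 : ℝ) ≤ N := by exact_mod_cast hN
    have h1 : (1 : ℝ) ≤ √N := by rw [Real.one_le_sqrt]; exact hN'
    have h2 : (1 : ℝ) - 1 / N ∈ Set.Ico (0 : ℝ) 1 := by
      refine ⟨?_, ?_⟩
      · rw [sub_nonneg, div_le_one (by linarith)]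
        exact hN'
      · have : 0 < (1 : ℝ) / N := by positivity
        linarith
    have := hB _ h2
    nlinarith
  constructor
  · rintro ⟨K, hK⟩
    obtain ⟨K₁, hK₁, h1⟩ := max_pr h0 hw ha hne hC (N₀ := 0) (fun N _ => (abs_le.1 (hK N)).2)
    obtain ⟨K₂, hK₂, h2⟩ := max_pr (a := fun n => -a n) h0 hw (fun n => by rw [abs_neg]; exact ha n) hne hC (N₀ := 0)
      (K := K) (fun N _ => by
        have h3 : S (fun n => -a n) w N = -S a w N := by simp [S, Finset.sum_neg_distrib]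
        rw [h3]
        have := (abs_le.1 (hK N)).1
        linarith)
    refine ⟨K₁ + K₂, fun N => ?_⟩
    have hs : 0 ≤ √(N : ℝ) := Real.sqrt_nonneg _
    have h3 := h1 N
    have h4 := h2 N
    rw [Finset.sum_neg_distrib] at h4
    rw [abs_le]
    constructor <;> nlinarith
  · rintro ⟨K, hK⟩
    exact ⟨2 * K * B, fun N => S_le_of_bdd h0 hw hB hK N⟩

end

end Pool.Agent.Helper63.EW
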