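import Pool.Agent.Helper63.EW.Fub
import Pool.Agent.Helper95.EW.Hm
import Pool.Agent.Helper25.ED.Defs

/-! Edge weights: the upper bound of the level integral, and the maximum principle for `mm`. -/

namespace Pool.Agent.Helper63.EW

open MeasureTheory Set Filter Topology
open Pool.Agent.Helper95.EW
open Pool.Agent.Helper71.MR (gt gt_cont gt_nonneg gt_zero gt_le_one gt_integrable mm ms)
open Pool.Agent.Helper18.ES (mu mu_le)
open Pool.Agent.Helper25.ED (SW)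

variable {w : ℝ → ℝ}

theorem mm_int {δ : ℝ} (hδ : δ ≤ 1) (y : ℝ) : Integrable (fun u : ℝ => mm (y + u) * gt δ u) := by
  refine ((ms_int0 hδ y).sub (rl_int (δ := δ) y)).congr ?_
  filter_upwards with u
  simp only [Pi.sub_apply]
  unfold Pool.Agent.Helper71.MR.ms
  ring

theorem AA_eq (x : ℝ) : AA mu x = Pool.Agent.Helper18.ES.S mu x := rfl

/-- the level function as an integral -/
theorem Dl_eq {δ : ℝ} (hδ : δ ≤ 1) (w : ℝ → ℝ) (y lam : ℝ) :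
    Dl (hm δ) w y lam = ∫ u : ℝ, gt δ u * (Real.exp (-(y + u) / 2) *
      (AA mu (Real.exp (y + u)) - AA mu (Ac w lam * Real.exp (y + u)))) := by
  rcases (Ac_nonneg w lam).eq_or_lt with h | h
  · unfold Dl
    rw [← h, Real.sqrt_zero, zero_mul, sub_zero, hm]
    refine integral_congr_ae (Eventually.of_forall fun u => ?_)
    have h1 : AA mu (0 * Real.exp (y + u)) = 0 := by simp [AA]
    beta_reduce
    rw [h1, sub_zero, AA_eq, mm]
    ring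
  · unfold Dl
    rw [hm, hm, ← integral_const_mul, ← integral_sub (mm_int hδ y) ((mm_int hδ _).const_mul _)]
    refine integral_congr_ae (Eventually.of_forall fun u => ?_)
    have h1 := mm_diff h (y + u)
    beta_reduce
    rw [AA_eq, AA_eq, ← h1, show y + Real.log (Ac w lam) + u = y + u + Real.log (Ac w lam) by ring]
    ring

theorem R_smul (σ : ℝ) (w : ℝ → ℝ) (x : ℝ) : R (fun n => σ * mu n) w x = σ * R mu w x := by
  unfold R
  rw [Finset.mul_sum]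
  exact Finset.sum_congr rfl fun n _ => by ring

theorem S_smul (σ : ℝ) (w : ℝ → ℝ) (N : ℕ) : S (fun n => σ * mu n) w N = σ * SW w N := by
  unfold S SW
  rw [Finset.mul_sum]
  exact Finset.sum_congr rfl fun n _ => by ring

/-- **The upper bound of the level integral** (blocks U1-U4). -/
theorem U (h0 : ∀ t ∈ Ico (0 : ℝ) 1, 0 ≤ w t) (hw : MonotoneOn w (Ico 0 1))
    (hub : ∀ B : ℝ, ∃ t ∈ Ico (0:ℝ) 1, B < w t) {Cw : ℝ} (hC : ∀ N : ℕ, 1 ≤ N → w (1 - 1 / N) ≤ Cw * √N)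
    {σ : ℝ} (hσ : |σ| = 1) {K : ℝ} {N₀ : ℕ} (hS : ∀ N : ℕ, N₀ ≤ N → σ * SW w N ≤ K * √N)
    {δ : ℝ} (hδ0 : 0 < δ) (hδ : δ ≤ 1) : ∃ τ₀ : ℝ, ∀ τ, τ₀ ≤ τ →
      IntegrableOn (Dl (hm δ) w τ) (Ioi 0) ∧
      σ * ∫ lam in Ioi (0 : ℝ), Dl (hm δ) w τ lam ≤ (2 * max K 0 + 24 * Cw) * ∫ u : ℝ, gt δ u := by
  have hC0 : 0 ≤ Cw := by
    have := (h0 0 ⟨le_rfl, one_pos⟩).trans (by simpa using hC 1 le_rfl)
    exact this
  have ha : ∀ n, |σ * mu n| ≤ 1 := fun n => by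
    rw [abs_mul, hσ, one_mul]
    exact mu_le n
  obtain ⟨τ₁, h1⟩ := upper (a := fun n => σ * mu n) h0 hw ha hC0 hC (le_max_right K 0) (N₀ := N₀)
    (fun N hN => by
      rw [S_smul]
      exact (hS N hN).trans (mul_le_mul_of_nonneg_right (le_max_left _ _) (Real.sqrt_nonneg _))) hδ0 hδ
  obtain ⟨τ₂, h2⟩ := fub (a := mu) h0 hw hub mu_le hC0 hC hδ0 hδ
  refine ⟨max τ₁ τ₂, fun τ hτ => ?_⟩
  obtain ⟨h3, h4⟩ := h2 τ ((le_max_right _ _).trans hτ)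
  have he : Dl (hm δ) w τ = fun lam : ℝ => ∫ u : ℝ, gt δ u * (Real.exp (-(τ + u) / 2) *
        (AA mu (Real.exp (τ + u)) - AA mu (Ac w lam * Real.exp (τ + u)))) := funext fun lam => Dl_eq hδ w τ lam
  constructor
  · rw [he]; exact h3
  · rw [he, h4, ← integral_const_mul]
    refine le_trans (le_of_eq ?_) (h1 τ ((le_max_left _ _).trans hτ))
    refine integral_congr_ae (Eventually.of_forall fun u => ?_)
    show σ * (gt δ u * (Real.exp (-(τ + u) / 2) * R mu w (Real.exp (τ + u)))) =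
      gt δ u * (Real.exp (-(τ + u) / 2) * R (fun n => σ * mu n) w (Real.exp (τ + u)))
    rw [R_smul]
    ring

/-- the maximum principle for the normalised Mertens function -/
theorem mm_le (h0 : ∀ t ∈ Ico (0 : ℝ) 1, 0 ≤ w t) (hw : MonotoneOn w (Ico 0 1))
    (hne : ∃ t ∈ Ico (0 : ℝ) 1, w t ≠ 0) {Cw : ℝ} (hC : ∀ N : ℕ, 1 ≤ N → w (1 - 1 / N) ≤ Cw * √N)
    {σ : ℝ} (hσ : |σ| = 1) {K : ℝ} {N₀ : ℕ} (hS : ∀ N : ℕ, N₀ ≤ N → σ * SW w N ≤ K * √N) :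
    ∃ K' : ℝ, 0 ≤ K' ∧ ∀ t : ℝ, σ * mm t ≤ K' := by
  have ha : ∀ n, |σ * mu n| ≤ 1 := fun n => by
    rw [abs_mul, hσ, one_mul]
    exact mu_le n
  obtain ⟨K', hK', h⟩ := max_pr (a := fun n => σ * mu n) h0 hw ha hne hC (K := K) (N₀ := N₀)
    (fun N hN => by rw [S_smul]; exact hS N hN)
  refine ⟨K', hK', fun t => ?_⟩
  have h1 := h ⌊Real.exp t⌋₊
  rw [← Finset.mul_sum] at h1
  have h2 : √((⌊Real.exp t⌋₊ : ℕ) : ℝ) ≤ √(Real.exp t) := Real.sqrt_le_sqrt (Nat.floor_le (Real.exp_pos _).le)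
  have h3 : σ * mm t = (σ * ∑ n ∈ Finset.Icc 1 ⌊Real.exp t⌋₊, mu n) * Real.exp (-t / 2) := by
    unfold Pool.Agent.Helper71.MR.mm Pool.Agent.Helper18.ES.S
    ring
  rw [h3]
  calc (σ * ∑ n ∈ Finset.Icc 1 ⌊Real.exp t⌋₊, mu n) * Real.exp (-t / 2)
      ≤ (K' * √(Real.exp t)) * Real.exp (-t / 2) :=
        mul_le_mul_of_nonneg_right (h1.trans (mul_le_mul_of_nonneg_left h2 hK')) (Real.exp_pos _).le
    _ = K' := by
        rw [← Real.exp_half, mul_assoc, ← Real.exp_add, neg_div, add_neg_cancel, Real.exp_zero, mul_one]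

/-- clause (2) for the Moebius function -/
theorem bdd_iff_mu (h0 : ∀ t ∈ Ico (0 : ℝ) 1, 0 ≤ w t) (hw : MonotoneOn w (Ico 0 1))
    (hne : ∃ t ∈ Ico (0 : ℝ) 1, w t ≠ 0) {B : ℝ} (hB : ∀ t ∈ Ico (0 : ℝ) 1, w t ≤ B) :
    (∃ K : ℝ, ∀ N : ℕ, |SW w N| ≤ K * √N) ↔ ∃ K : ℝ, ∀ N : ℕ, |∑ n ∈ Finset.Icc 1 N, mu n| ≤ K * √N :=
  bdd_iff (a := mu) h0 hw mu_le hne hB

end Pool.Agent.Helper63.EW
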